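import Pool.Agent.H39.BE.KVS
import Pool.Agent.H66.UP.CS

/-!
# THEOREM BEAU: all data in the chart, Julia set = sphere (`all_s` of H66/UP/CS with `KV`)
-/

set_option autoImplicit false

open Filter Topology Polynomial Metric Set MeasureTheory

namespace Pool.Agent.H39.BE

open Pool.Agent.H44.Fatou (rat rat_continuous rat_coe rat_coe_of_ne pt crit_coe)
open Pool.Agent.H32.BT Pool.Agent.H79.Eul Pool.Agent.H79.Par
open Pool.Agent.H35.EX Pool.Agent.H44.RR Pool.Agent.H56.HR Pool.Agent.H44.RC Pool.Agent.H47.RJ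
open Pool.Agent.H47.NM Pool.Agent.H47.NN Pool.Agent.H44.ND Pool.Agent.H79.ES Pool.Agent.H44.RG
open Pool.Agent.H44.CP Pool.Agent.H47.PS Pool.Agent.H64.NC
open Pool.Agent.H61.TT Pool.Agent.H57.CP Pool.Agent.H3.NC Pool.Agent.H78.NS Pool.Agent.H18.UP
open Pool.Agent.H66.UP hiding KV
open Pool.Agent.H1.PU (KA)

variable {d : ℕ} {v : E d}

/-- Julia set = sphere -/
theorem allv_s (hd : 2 ≤ d) (hcop : IsCoprime (pol v.1) (pol v.2))
    (hdeg : max (pol v.1).natDegree (pol v.2).natDegree = d) (hup : ¬ Up v) (hJ : JS (Rf v) = univ)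
    (h0 : Rf v ((0 : ℂ) : OnePoint ℂ) = ((0 : ℂ) : OnePoint ℂ))
    (h1 : Rf v ((1 : ℂ) : OnePoint ℂ) = ((1 : ℂ) : OnePoint ℂ))
    (hi : Rf v OnePoint.infty = OnePoint.infty) {c : OnePoint ℂ} (hc : IsCrit (Rf v) c) :
    Geo d (pol v.1) (pol v.2) univ 1 ∧ ∀ c0 : ℂ, Cr (pol v.1) (pol v.2) c0 →
      ∃ (δ1 R C : ℝ) (r K : ℂ → ℂ → ℂ) (Y : ℂ → ℂ) (N : ℕ) (hh X : ℕ → ℂ → ℂ),
        KV (pol v.1) (pol v.2) univ univ c0 δ1 R C KA r K Y N hh X := by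
  obtain ⟨c1, rfl⟩ := crit_pl hd hcop hdeg hup hJ hi hc
  obtain ⟨L0, θ, hs⟩ := sp_of hd hcop hdeg hup hJ h0 h1 hi hc
  have hV : ∀ j ≤ 2 * d, ∃ V : ℂ → ℂ, VelP (pol v.1) (pol v.2) (X ^ j) V := fun j hj =>
    vel_s hd hcop hdeg hup hJ h0 h1 hi ((natDegree_X_pow_le j).trans hj)
  exact ⟨geo_s hd hcop hdeg hup hJ hs hV, fun c0 hc0 => kv_s hs hV c0 hc0⟩

end Pool.Agent.H39.BE
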