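import Pool.Agent.H43.UP.S2D
import Pool.Agent.H43.UP.Defs
import Pool.Agent.H66.UP.KI3

/-!
# THEOREM BEAU (universal bounds for the postcritical set): definitions

`kp a b c = |g''(c)|`. `FatM .. M x`: annuli of the ratio `M` at arbitrarily small scales around `x` in the complement of `PJ`. `Rng .. θ`: periodic points in the rings at the critical points (the ring condition of `Geo` with a given `θ`).
`CQ`: the absolute constant of `ki3`. `KV`: the kernel data `KD` with the decomposition of the error in the three point estimate: an absolute part and the vector `X j x - X j y - (x - y) / (z - y) * (X j z - X j y)`, `j < N`, of the velocities.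
`LV`: the function `D` of one level: `η` universal, the vector `A` of size `C' * t1 ^ 2`, `C'` may depend on the map.
-/

set_option autoImplicit false

open Filter Topology Polynomial Metric Set MeasureTheory

namespace Pool.Agent.H39.BE

open Pool.Agent.H61.TT Pool.Agent.H57.CP Pool.Agent.H78.NS Pool.Agent.H18.UP Pool.Agent.H3.NC

/-- the second derivative at a critical point -/
noncomputable def kp (a b : Polynomial ℂ) (c : ℂ) : ℝ := ‖(derivative (ww a b)).eval c / b.eval c ^ 2‖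

/-- annuli of the ratio `M` at arbitrarily small scales -/
def FatM (a b : Polynomial ℂ) (J : Set ℂ) (M : ℝ) (x : ℂ) : Prop :=
  ∀ δ : ℝ, 0 < δ → ∃ e R : ℝ, 0 < e ∧ M * e ≤ R ∧ R ≤ δ ∧ PJ a b J ∩ ball x R ⊆ closedBall x e

/-- periodic points in rings at the critical points -/
def Rng (a b : Polynomial ℂ) (J : Set ℂ) (θ : ℝ) : Prop :=
  ∃ r1 : ℝ, 0 < r1 ∧ ∀ c ∈ J, Cr a b c → ∀ ρ : ℝ, 0 < ρ → ρ ≤ r1 → ∃ w ∈ J,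
    θ * ρ ≤ ‖w - c‖ ∧ ‖w - c‖ ≤ ρ / 4 ∧ ∃ p : ℕ, 0 < p ∧ w ∈ (pre a b)^[p] {w}

/-- the absolute constant of the kernel `1 / (w - x)` -/
noncomputable def CQ : ℝ := Classical.choose Pool.Agent.H66.UP.ki3

/-- the kernel data with the vector of the velocities -/
structure KV (a b : Polynomial ℂ) (J Z : Set ℂ) (c0 : ℂ) (δ1 R C : ℝ) (q r K : ℂ → ℂ → ℂ) (Y : ℂ → ℂ) (N : ℕ)
    (hh X : ℕ → ℂ → ℂ) : Prop extends Pool.Agent.H66.UP.KD a b J Z c0 δ1 R C q r K Y where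
  hi : ∀ j < N, IntegrableOn (hh j) Z
  tv : ∀ x ∈ J, ∀ y ∈ J, ∀ z ∈ J, ‖x‖ ≤ R → ‖y‖ ≤ R → ‖z‖ ≤ R → x ≠ y → ‖x - y‖ ≤ ‖z - y‖ →
    ∫⁻ w in Z, ‖K x w - K y w - (x - y) / (z - y) * (K z w - K y w) -
      ∑ j ∈ Finset.range N, hh j w * (X j x - X j y - (x - y) / (z - y) * (X j z - X j y))‖ₑ ≤
      ENNReal.ofReal (CQ * ‖x - y‖ * (1 + Real.log (‖z - y‖ / ‖x - y‖)))
  tx : ∀ j < N, ∀ x ∈ J, ∀ y ∈ J, ∀ z ∈ J, ‖x‖ ≤ R → ‖y‖ ≤ R → ‖z‖ ≤ R → x ≠ y → ‖x - y‖ ≤ ‖z - y‖ →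
    ‖X j x - X j y - (x - y) / (z - y) * (X j z - X j y)‖ ≤ C * ‖x - y‖ * (1 + Real.log (‖z - y‖ / ‖x - y‖))

/-- the orbits and their sizes (`Ob` of H43/UP with `C1` in `B`): `v = g c0`, `n = k2 - 1`, `n' = m0 - k2` -/
structure OB (a b : Polynomial ℂ) (J V C0 : Set ℂ) (c0 : ℂ) (ρ M Kc C1 R : ℝ) (n n' p : ℕ) (q2 z2 α : ℂ) (t1 s1 t2 : ℝ) : Prop where
  vJ : ∀ k ≤ n, (gg a b)^[k] (gg a b c0) ∈ J
  vb : ∀ k < n, b.eval ((gg a b)^[k] (gg a b c0)) ≠ 0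
  vd : ∀ k < n, dg a b ((gg a b)^[k] (gg a b c0)) ≠ 0
  vn : tD a b n (gg a b c0) ≠ 0
  vV : ∀ k < n, (gg a b)^[k] (gg a b c0) ∉ V
  qJ : q2 ∈ J
  qc : Cr a b q2
  cV : c0 ∈ V
  zJ : ∀ i, (gg a b)^[i] z2 ∈ J
  zb : ∀ i, b.eval ((gg a b)^[i] z2) ≠ 0
  zd : ∀ i, dg a b ((gg a b)^[i] z2) ≠ 0
  zV : ∀ i < n', (gg a b)^[i] z2 ∉ V
  zα : (gg a b)^[n'] z2 = α
  αJ : α ∈ J
  pp : 0 < p
  αp : (gg a b)^[p] α = α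
  αV : α ∈ V
  αn : ∀ j, 0 < j → j < p → (gg a b)^[j] α ∉ V
  αm : 2 ≤ ‖tD a b p α‖
  cas : (q2 ∉ V ∧ q2 ≠ c0) ∨ (q2 = c0 ∧ t2 = ρ)
  Rv : ‖(gg a b)^[n] (gg a b c0)‖ ≤ R
  Rq : ‖q2‖ ≤ R
  Rz : ‖z2‖ ≤ R
  Rα : ‖α‖ ≤ R
  hM : 1 ≤ M
  hKM : Kc ≤ M
  hK : 1 ≤ Kc
  t2p : 0 < t2
  ve : M * ‖(gg a b)^[n] (gg a b c0) - q2‖ ≤ t2
  zl : t2 ≤ Kc * ‖z2 - q2‖
  zu : ‖z2 - q2‖ ≤ Kc * t2
  hC1 : 0 < C1
  B : ‖(tD a b n (gg a b c0))⁻¹‖ * t2 ≤ C1 * t1 ^ 2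
  be : ‖(tD a b n' z2)⁻¹‖ * ρ ≤ Kc * t2
  hρ : 0 < ρ
  hρ1 : ρ ≤ 1
  t1p : 0 < t1
  ts : t1 ≤ s1
  sρ : M * s1 ≤ ρ
  α1 : ρ ≤ Kc * ‖α - c0‖
  Vs : V ⊆ ball c0 (2 * ρ)
  CV : C0 ⊆ V
  Cs : C0 ⊆ ball c0 s1

/-- the function `D` of one level -/
structure LV (a b : Polynomial ℂ) (Z V C0 : Set ℂ) (c0 : ℂ) (ρ t1 η C' : ℝ) (N : ℕ) (hh : ℕ → ℂ → ℂ) (D P : ℂ → ℂ)
    (A : ℕ → ℂ) : Prop where
  Di : IntegrableOn D Z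
  Pd : DifferentiableOn ℂ P V
  Pn : kp a b c0 / 2 ≤ ‖P c0‖
  hV : ∫⁻ w in V, ‖D w - P w‖ₑ ≤ ENNReal.ofReal (η * kp a b c0 * ρ ^ 2)
  hC : ∫⁻ w in C0, ‖D w - P w‖ₑ ≤ ENNReal.ofReal (η * kp a b c0 * t1 ^ 2)
  he : ∫⁻ w in Z, ‖D w - pf a b D w - ∑ j ∈ Finset.range N, hh j w * A j‖ₑ ≤ ENNReal.ofReal (η * kp a b c0 * t1 ^ 2)
  hA : ∀ j < N, ‖A j‖ ≤ C' * t1 ^ 2

end Pool.Agent.H39.BE
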