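import Pool.Agent.H39.BE.Defs
import Pool.Agent.H43.UP.TP

/-!
# THEOREM BEAU: two levels

`F n = A n / t n ^ 2` is bounded, so there are `i, m` with `F m - F i` small, `m` as large as needed. `D = D m - γ D i`, `P = P m - γ P i`, `γ = t m ^ 2 / t i ^ 2`.
The vector of `D` is `A m - γ A i = t m ^ 2 (F m - F i)`. `γ ∫_(V m) |D i - P i| ≤ γ η φ t i ^ 2 = η φ t m ^ 2` (absolute continuity), `γ |P i c0| ≤ φ / 4`.
-/

set_option autoImplicit false

open Filter Topology Polynomial Metric Set MeasureTheory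

namespace Pool.Agent.H39.BE

open Pool.Agent.H61.TT Pool.Agent.H57.CP Pool.Agent.H78.NS Pool.Agent.H18.UP

private theorem pf_ae {d : ℕ} {a b : Polynomial ℂ} {Z : Set ℂ} (hr : RatD d a b) (hZ : MeasurableSet Z)
    (hZi : ∀ y, b.eval y ≠ 0 → gg a b y ∈ Z → y ∈ Z) {D : ℂ → ℂ} (hD : IntegrableOn D Z) :
    AEStronglyMeasurable (pf a b D) (volume.restrict Z) := by
  have h1 : Integrable (Z.indicator D) := (integrable_indicator_iff hZ).2 hD
  have h2 := (Pool.Agent.H43.UP.pf_to hr).int _ h1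
  refine (h2.aestronglyMeasurable.restrict (s := Z)).congr ?_
  filter_upwards [ae_restrict_mem hZ] with x hx
  unfold pf
  refine Finset.sum_congr rfl fun y hy => ?_
  obtain ⟨h3, h4⟩ := Pool.Agent.H43.UP.mem_fs hr hy
  rw [indicator_of_mem (hZi y h3 (by rw [h4]; exact hx))]

private theorem pf_sub (a b : Polynomial ℂ) (D1 D2 : ℂ → ℂ) (γ : ℂ) (w : ℂ) :
    pf a b (fun z => D1 z - γ * D2 z) w = pf a b D1 w - γ * pf a b D2 w := by
  unfold pf
  rw [Finset.mul_sum, ← Finset.sum_sub_distrib]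
  exact Finset.sum_congr rfl fun y _ => by ring

private theorem vol_ball2 (c : ℂ) {r : ℝ} (hr : 0 ≤ r) : volume (ball c r) = ENNReal.ofReal (Real.pi * r ^ 2) := by
  rw [Complex.volume_ball, mul_comm, ENNReal.ofReal_mul Real.pi_pos.le, ENNReal.ofReal_pow hr]
  congr 1
  rw [ENNReal.ofReal_eq_coe_nnreal Real.pi_pos.le]
  rfl

private theorem le_of_balls {c : ℂ} {r s : ℝ} (hs : 0 < s) (h : ball c r ⊆ ball c s) : r ≤ s := by
  by_contra h1
  rw [not_le] at h1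
  have h2 : c + (s : ℂ) ∈ ball c r := by
    rw [mem_ball_iff_norm, add_sub_cancel_left, Complex.norm_real, Real.norm_of_nonneg hs.le]
    exact h1
  have h3 := h h2
  rw [mem_ball_iff_norm, add_sub_cancel_left, Complex.norm_real, Real.norm_of_nonneg hs.le] at h3
  exact lt_irrefl _ h3

private theorem two_int {μ : Measure ℂ} {f g : ℂ → ℂ} (γ : ℝ) (hγ : 0 ≤ γ) (hf : AEStronglyMeasurable f μ) {A B : ℝ}
    (hA0 : 0 ≤ A) (hB0 : 0 ≤ B)
    (hA : ∫⁻ w, ‖f w‖ₑ ∂μ ≤ ENNReal.ofReal A) (hB : ∫⁻ w, ‖g w‖ₑ ∂μ ≤ ENNReal.ofReal B) :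
    ∫⁻ w, ‖f w - (γ : ℂ) * g w‖ₑ ∂μ ≤ ENNReal.ofReal (A + γ * B) := by
  have h1 : ∫⁻ w, ‖f w - (γ : ℂ) * g w‖ₑ ∂μ ≤ ∫⁻ w, (‖f w‖ₑ + ENNReal.ofReal γ * ‖g w‖ₑ) ∂μ := by
    refine lintegral_mono fun w => ?_
    refine (enorm_sub_le).trans ?_
    rw [enorm_mul, show ‖(γ : ℂ)‖ₑ = ENNReal.ofReal γ by
      rw [← ofReal_norm, Complex.norm_real, Real.norm_of_nonneg hγ]]
  refine h1.trans ?_
  rw [lintegral_add_left' hf.enorm, lintegral_const_mul' _ _ ENNReal.ofReal_ne_top,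
    ENNReal.ofReal_add hA0 (by positivity), ENNReal.ofReal_mul hγ]
  gcongr

theorem two_lv {d : ℕ} {a b : Polynomial ℂ} {Z : Set ℂ} {c0 : ℂ} {η C' : ℝ} {N : ℕ} {hh : ℕ → ℂ → ℂ} (hr : RatD d a b)
    (hZ : MeasurableSet Z) (hZi : ∀ y, b.eval y ≠ 0 → gg a b y ∈ Z → y ∈ Z) (hη : 0 < η) (hC' : 0 ≤ C') (hk : 0 < kp a b c0)
    (hhi : ∀ j < N, IntegrableOn (hh j) Z) {Q : ℝ → Set ℂ → Set ℂ → Prop}
    (H : ∀ δ : ℝ, 0 < δ → ∃ (ρ t1 : ℝ) (V C0 : Set ℂ) (D P : ℂ → ℂ) (A : ℕ → ℂ), Q ρ V C0 ∧ V ⊆ ball c0 δ ∧ IsOpen V ∧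
      V ⊆ Z ∧ ball c0 ρ ⊆ V ∧ 0 < t1 ∧ t1 ≤ ρ ∧ C0 ⊆ V ∧ MeasurableSet C0 ∧ ball c0 t1 ⊆ C0 ∧
      LV a b Z V C0 c0 ρ t1 η C' N hh D P A) :
    ∃ (ρ : ℝ) (V C0 : Set ℂ) (D P : ℂ → ℂ), Q ρ V C0 ∧ Pool.Agent.H43.UP.DD a b Z V C0 c0 ρ (12 * η) D P := by
  classical
  have H' := fun n : ℕ => H (1 / ((n : ℝ) + 1)) (by positivity)
  choose ρ t V C0 D P A hQ hVs hVo hVZ hVb ht htρ hCV hCm hCb hL using H'
  obtain ⟨φ, hφ⟩ : ∃ φ, φ = kp a b c0 := ⟨_, rfl⟩
  rw [← hφ] at hk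
  -- the vectors
  set F : ℕ → Fin N → ℂ := fun n j => A n j / ((t n ^ 2 : ℝ) : ℂ) with hF
  have hFb : ∀ n, F n ∈ closedBall (0 : Fin N → ℂ) C' := by
    intro n
    rw [mem_closedBall_zero_iff, pi_norm_le_iff_of_nonneg hC']
    intro j
    have h1 := (hL n).hA j j.2
    have h2 : 0 < t n ^ 2 := pow_pos (ht n) 2
    show ‖A n j / ((t n ^ 2 : ℝ) : ℂ)‖ ≤ C'
    rw [norm_div, Complex.norm_real, Real.norm_of_nonneg h2.le, div_le_iff₀ h2]
    exact h1
  obtain ⟨F0, -, ψ, hψ, hF0⟩ := tendsto_subseq_of_bounded isBounded_closedBall hFb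
  set S : ℝ := ∑ j ∈ Finset.range N, (∫⁻ w in Z, ‖hh j w‖ₑ).toReal with hS
  have hS0 : 0 ≤ S := Finset.sum_nonneg fun j _ => ENNReal.toReal_nonneg
  set ε : ℝ := η * φ / (S + 1) with hε
  have hε0 : 0 < ε := by positivity
  obtain ⟨n0, hn0⟩ := Metric.cauchySeq_iff'.1 hF0.cauchySeq ε hε0
  set i := ψ n0 with hi
  have hti := ht i
  have hti2 : 0 < t i ^ 2 := pow_pos hti 2
  have hρi : 0 < ρ i := hti.trans_le (htρ i)
  have hs0 : Tendsto (fun n : ℕ => 1 / ((ψ n : ℝ) + 1)) atTop (𝓝 0) :=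
    tendsto_one_div_add_atTop_nhds_zero_nat.comp hψ.tendsto_atTop
  have hρs : ∀ n, ρ n ≤ 1 / ((n : ℝ) + 1) := fun n => le_of_balls (by positivity) ((hVb n).trans (hVs n))
  have hts : ∀ n, t n ≤ 1 / ((n : ℝ) + 1) := fun n => (htρ n).trans (hρs n)
  -- absolute continuity
  have hvol : Tendsto (fun n : ℕ => volume (V (ψ n))) atTop (𝓝 0) := by
    have h1 : Tendsto (fun n : ℕ => ENNReal.ofReal (Real.pi * (1 / ((ψ n : ℝ) + 1)) ^ 2)) atTop (𝓝 0) := by
      have h2 : Tendsto (fun n : ℕ => Real.pi * (1 / ((ψ n : ℝ) + 1)) ^ 2) atTop (𝓝 0) := by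
        have h3 := (hs0.pow 2).const_mul Real.pi
        simpa using h3
      have h4 := ENNReal.tendsto_ofReal h2
      rwa [ENNReal.ofReal_zero] at h4
    refine tendsto_of_tendsto_of_tendsto_of_le_of_le tendsto_const_nhds h1 (fun n => bot_le) fun n => ?_
    refine (measure_mono (hVs (ψ n))).trans ?_
    rw [vol_ball2 _ (by positivity)]
  have hfin : ∫⁻ w in V i, ‖D i w - P i w‖ₑ ≠ ⊤ := ((hL i).hV.trans_lt ENNReal.ofReal_lt_top).ne
  have hac : Tendsto (fun n : ℕ => ∫⁻ w in V (ψ n), ‖D i w - P i w‖ₑ ∂(volume.restrict (V i))) atTop (𝓝 0) := by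
    refine tendsto_setLIntegral_zero hfin ?_
    refine tendsto_of_tendsto_of_tendsto_of_le_of_le tendsto_const_nhds hvol (fun n => bot_le) fun n => ?_
    exact Measure.restrict_apply_le _ _
  have e2 : ∀ᶠ n in atTop, ∫⁻ w in V (ψ n), ‖D i w - P i w‖ₑ ∂(volume.restrict (V i)) < ENNReal.ofReal (η * φ * t i ^ 2) :=
    hac.eventually_lt_const (ENNReal.ofReal_pos.2 (by positivity))
  have e1 : ∀ᶠ n in atTop, 1 / ((ψ n : ℝ) + 1) < ρ i := hs0.eventually_lt_const hρi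
  have e3 : ∀ᶠ n in atTop, (1 / ((ψ n : ℝ) + 1)) ^ 2 / t i ^ 2 * ‖P i c0‖ < φ / 4 := by
    have h1 : Tendsto (fun n : ℕ => (1 / ((ψ n : ℝ) + 1)) ^ 2 / t i ^ 2 * ‖P i c0‖) atTop (𝓝 0) := by
      have h3 := ((hs0.pow 2).div_const (t i ^ 2)).mul_const ‖P i c0‖
      simpa using h3
    exact h1.eventually_lt_const (by positivity)
  obtain ⟨n, ⟨⟨hn1, hn2⟩, hn3⟩, hn4⟩ := (((e1.and e2).and e3).and (eventually_ge_atTop n0)).exists
  have hd0 := hn0 n hn4
  set m := ψ n with hm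
  have htm := ht m
  have htm2 : 0 < t m ^ 2 := pow_pos htm 2
  have hVmi : V m ⊆ V i := (hVs m).trans ((ball_subset_ball hn1.le).trans (hVb i))
  have hn2' : ∫⁻ w in V m, ‖D i w - P i w‖ₑ ≤ ENNReal.ofReal (η * φ * t i ^ 2) := by
    rw [Measure.restrict_restrict (hVo m).measurableSet, inter_eq_self_of_subset_left hVmi] at hn2
    exact hn2.le
  set γ : ℝ := t m ^ 2 / t i ^ 2 with hγ
  have hγ0 : 0 < γ := div_pos htm2 hti2
  have hγt : γ * t i ^ 2 = t m ^ 2 := div_mul_cancel₀ _ hti2.ne'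
  have hγP : γ * ‖P i c0‖ ≤ φ / 4 := by
    refine le_trans ?_ hn3.le
    refine mul_le_mul_of_nonneg_right ?_ (norm_nonneg _)
    refine div_le_div_of_nonneg_right ?_ hti2.le
    exact pow_le_pow_left₀ htm.le (hts m) 2
  have hc0m : c0 ∈ V m := hVb m (mem_ball_self (htm.trans_le (htρ m)))
  have hPc : φ / 4 ≤ ‖P m c0 - (γ : ℂ) * P i c0‖ := by
    have h1 : ‖P m c0‖ - ‖(γ : ℂ) * P i c0‖ ≤ ‖P m c0 - (γ : ℂ) * P i c0‖ := norm_sub_norm_le _ _
    have h2 : ‖(γ : ℂ) * P i c0‖ = γ * ‖P i c0‖ := by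
      rw [norm_mul, Complex.norm_real, Real.norm_of_nonneg hγ0.le]
    have h3 := (hL m).Pn
    rw [← hφ] at h3
    rw [h2] at h1
    linarith
  have hvC : ENNReal.ofReal (t m ^ 2) ≤ volume (C0 m) := by
    have h1 : volume (ball c0 (t m)) ≤ volume (C0 m) := measure_mono (hCb m)
    rw [vol_ball2 c0 htm.le] at h1
    refine le_trans (ENNReal.ofReal_le_ofReal ?_) h1
    nlinarith [Real.pi_gt_three, sq_nonneg (t m)]
  obtain ⟨u, hu⟩ : ∃ u, u = ‖P m c0 - (γ : ℂ) * P i c0‖ := ⟨_, rfl⟩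
  rw [← hu] at hPc
  have hu0 : 0 ≤ u := by
    rw [hu]
    exact norm_nonneg _
  have hkey : ∀ X : ℝ, X ≤ 3 * (η * φ * t m ^ 2) → ENNReal.ofReal X ≤ ENNReal.ofReal (12 * η * u) * volume (C0 m) := by
    intro X hX
    have h1 : ENNReal.ofReal X ≤ ENNReal.ofReal (12 * η * u) * ENNReal.ofReal (t m ^ 2) := by
      rw [← ENNReal.ofReal_mul (by positivity)]
      apply ENNReal.ofReal_le_ofReal
      refine hX.trans ?_
      have h2 : 3 * (η * φ) ≤ 12 * η * u := by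
        have := mul_le_mul_of_nonneg_left hPc hη.le
        linarith
      have h3 := mul_le_mul_of_nonneg_right h2 (sq_nonneg (t m))
      linarith
    refine h1.trans ?_
    gcongr
  have hDm := (hL m).Di
  have hDi := (hL i).Di
  have hPm : AEStronglyMeasurable (P m) (volume.restrict (V m)) :=
    ((hL m).Pd.continuousOn).aestronglyMeasurable (hVo m).measurableSet
  have hDPm : AEStronglyMeasurable (fun w => D m w - P m w) (volume.restrict (V m)) :=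
    ((hDm.mono_set (hVZ m)).aestronglyMeasurable).sub hPm
  have hηφ : 0 ≤ η * φ * t i ^ 2 := by positivity
  refine ⟨ρ m, V m, C0 m, fun w => D m w - (γ : ℂ) * D i w, fun w => P m w - (γ : ℂ) * P i w, hQ m, ?_⟩
  refine ⟨hDm.sub (hDi.const_mul _), ?_, ?_, ?_, ?_, ?_⟩
  · exact (hL m).Pd.sub (((hL i).Pd.mono hVmi).const_mul _)
  · intro h0
    have h1 : u = 0 := by
      rw [hu]
      exact norm_eq_zero.2 h0
    rw [h1] at hPc
    linarith
  · show ∫⁻ w in V m, ‖(D m w - (γ : ℂ) * D i w) - (P m w - (γ : ℂ) * P i w)‖ₑ ≤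
      ENNReal.ofReal (12 * η * ‖P m c0 - (γ : ℂ) * P i c0‖ * ρ m ^ 2)
    have e0 : ∀ w, (D m w - (γ : ℂ) * D i w) - (P m w - (γ : ℂ) * P i w) = (D m w - P m w) - (γ : ℂ) * (D i w - P i w) := by
      intro w
      ring
    simp_rw [e0]
    have h1 := (hL m).hV
    rw [← hφ] at h1
    refine (two_int γ hγ0.le hDPm (by positivity) hηφ h1 hn2').trans (ENNReal.ofReal_le_ofReal ?_)
    rw [← hu]
    have h3 : γ * (η * φ * t i ^ 2) = η * φ * t m ^ 2 := by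
      rw [← hγt]
      ring
    rw [h3]
    have h4 : t m ^ 2 ≤ ρ m ^ 2 := pow_le_pow_left₀ htm.le (htρ m) 2
    have h5 : η * φ * t m ^ 2 ≤ η * φ * ρ m ^ 2 := mul_le_mul_of_nonneg_left h4 (by positivity)
    have h6 : 2 * (η * φ) ≤ 12 * η * u := by
      have := mul_le_mul_of_nonneg_left hPc hη.le
      have h7 : 0 < η * φ := by positivity
      linarith
    have h7 := mul_le_mul_of_nonneg_right h6 (sq_nonneg (ρ m))
    linarith
  · show ∫⁻ w in C0 m, ‖(D m w - (γ : ℂ) * D i w) - (P m w - (γ : ℂ) * P i w)‖ₑ ≤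
      ENNReal.ofReal (12 * η * ‖P m c0 - (γ : ℂ) * P i c0‖) * volume (C0 m)
    rw [← hu]
    have e0 : ∀ w, (D m w - (γ : ℂ) * D i w) - (P m w - (γ : ℂ) * P i w) = (D m w - P m w) - (γ : ℂ) * (D i w - P i w) := by
      intro w
      ring
    simp_rw [e0]
    have h1 := (hL m).hC
    rw [← hφ] at h1
    have h2 : ∫⁻ w in C0 m, ‖D i w - P i w‖ₑ ≤ ENNReal.ofReal (η * φ * t i ^ 2) :=
      (lintegral_mono_set (hCV m)).trans hn2'
    have hmC : AEStronglyMeasurable (fun w => D m w - P m w) (volume.restrict (C0 m)) :=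
      hDPm.mono_measure (Measure.restrict_mono (hCV m) le_rfl)
    refine (two_int γ hγ0.le hmC (by positivity) hηφ h1 h2).trans (hkey _ ?_)
    have h3 : γ * (η * φ * t i ^ 2) = η * φ * t m ^ 2 := by
      rw [← hγt]
      ring
    rw [h3]
    have h7 : 0 < η * φ * t m ^ 2 := by positivity
    linarith
  · show ∫⁻ w in Z, ‖(D m w - (γ : ℂ) * D i w) - pf a b (fun w => D m w - (γ : ℂ) * D i w) w‖ₑ ≤
      ENNReal.ofReal (12 * η * ‖P m c0 - (γ : ℂ) * P i c0‖) * volume (C0 m)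
    rw [← hu]
    have h1 := (hL m).he
    have h2 := (hL i).he
    rw [← hφ] at h1 h2
    have hsm : ∀ B : ℕ → ℂ, AEStronglyMeasurable (fun w => ∑ j ∈ Finset.range N, hh j w * B j) (volume.restrict Z) := by
      intro B
      refine Finset.aestronglyMeasurable_fun_sum _ fun j hj => ?_
      exact (hhi j (Finset.mem_range.1 hj)).aestronglyMeasurable.mul_const _
    have hmE : AEStronglyMeasurable (fun w => D m w - pf a b (D m) w - ∑ j ∈ Finset.range N, hh j w * A m j)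
        (volume.restrict Z) :=
      (hDm.aestronglyMeasurable.sub (pf_ae hr hZ hZi hDm)).sub (hsm _)
    have h3 := two_int γ hγ0.le hmE (by positivity) hηφ h1 h2
    have e0 : ∀ w, (D m w - (γ : ℂ) * D i w) - pf a b (fun w => D m w - (γ : ℂ) * D i w) w =
        ((D m w - pf a b (D m) w - ∑ j ∈ Finset.range N, hh j w * A m j) -
          (γ : ℂ) * (D i w - pf a b (D i) w - ∑ j ∈ Finset.range N, hh j w * A i j)) +
          ∑ j ∈ Finset.range N, hh j w * (A m j - (γ : ℂ) * A i j) := by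
      intro w
      rw [pf_sub]
      have h4 : ∑ j ∈ Finset.range N, hh j w * (A m j - (γ : ℂ) * A i j) =
          ∑ j ∈ Finset.range N, hh j w * A m j - (γ : ℂ) * ∑ j ∈ Finset.range N, hh j w * A i j := by
        rw [Finset.mul_sum, ← Finset.sum_sub_distrib]
        exact Finset.sum_congr rfl fun j _ => by ring
      rw [h4]
      ring
    simp_rw [e0]
    have hb : ∀ j < N, ‖A m j - (γ : ℂ) * A i j‖ ≤ t m ^ 2 * ε := by
      intro j hj
      have h5 : A m j - (γ : ℂ) * A i j = ((t m ^ 2 : ℝ) : ℂ) * (F m ⟨j, hj⟩ - F i ⟨j, hj⟩) := by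
        have h6 : ((t m ^ 2 : ℝ) : ℂ) ≠ 0 := Complex.ofReal_ne_zero.2 htm2.ne'
        have h7 : ((t i ^ 2 : ℝ) : ℂ) ≠ 0 := Complex.ofReal_ne_zero.2 hti2.ne'
        show A m j - (γ : ℂ) * A i j = ((t m ^ 2 : ℝ) : ℂ) * (A m j / ((t m ^ 2 : ℝ) : ℂ) - A i j / ((t i ^ 2 : ℝ) : ℂ))
        have h8 : (γ : ℂ) = ((t m ^ 2 : ℝ) : ℂ) / ((t i ^ 2 : ℝ) : ℂ) := by
          rw [hγ, Complex.ofReal_div]
        rw [h8]
        field_simp
      rw [h5, norm_mul, Complex.norm_real, Real.norm_of_nonneg htm2.le]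
      refine mul_le_mul_of_nonneg_left ?_ htm2.le
      have h6 : ‖(F m - F i) ⟨j, hj⟩‖ ≤ ‖F m - F i‖ := norm_le_pi_norm _ _
      rw [dist_eq_norm] at hd0
      exact h6.trans hd0.le
    have hsum : ∫⁻ w in Z, ‖∑ j ∈ Finset.range N, hh j w * (A m j - (γ : ℂ) * A i j)‖ₑ ≤
        ENNReal.ofReal (η * φ * t m ^ 2) := by
      have h5 : ∫⁻ w in Z, ‖∑ j ∈ Finset.range N, hh j w * (A m j - (γ : ℂ) * A i j)‖ₑ ≤
          ∫⁻ w in Z, ∑ j ∈ Finset.range N, ‖hh j w‖ₑ * ENNReal.ofReal (t m ^ 2 * ε) := by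
        refine lintegral_mono fun w => ?_
        refine (enorm_sum_le _ _).trans (Finset.sum_le_sum fun j hj => ?_)
        rw [enorm_mul]
        gcongr
        rw [← ofReal_norm]
        exact ENNReal.ofReal_le_ofReal (hb j (Finset.mem_range.1 hj))
      refine h5.trans ?_
      rw [lintegral_finsetSum' _ fun j hj =>
        ((hhi j (Finset.mem_range.1 hj)).aestronglyMeasurable.enorm).mul_const _]
      have h6 : ∀ j ∈ Finset.range N, ∫⁻ w in Z, ‖hh j w‖ₑ * ENNReal.ofReal (t m ^ 2 * ε) =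
          ENNReal.ofReal ((∫⁻ w in Z, ‖hh j w‖ₑ).toReal * (t m ^ 2 * ε)) := by
        intro j hj
        rw [lintegral_mul_const' _ _ ENNReal.ofReal_ne_top, ENNReal.ofReal_mul ENNReal.toReal_nonneg,
          ENNReal.ofReal_toReal ((hhi j (Finset.mem_range.1 hj)).hasFiniteIntegral.ne)]
      rw [Finset.sum_congr rfl h6, ← ENNReal.ofReal_sum_of_nonneg fun j _ => by positivity, ← Finset.sum_mul]
      apply ENNReal.ofReal_le_ofReal
      rw [← hS]
      have h7 : S * (t m ^ 2 * ε) ≤ (S + 1) * (t m ^ 2 * ε) := mul_le_mul_of_nonneg_right (by linarith) (by positivity)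
      refine h7.trans (le_of_eq ?_)
      rw [hε]
      field_simp
    have h4 : ∀ f g : ℂ → ℂ, AEStronglyMeasurable g (volume.restrict Z) →
        ∫⁻ w in Z, ‖f w + g w‖ₑ ≤ (∫⁻ w in Z, ‖f w‖ₑ) + ∫⁻ w in Z, ‖g w‖ₑ := by
      intro f g hg
      rw [← lintegral_add_right' _ hg.enorm]
      exact lintegral_mono fun w => enorm_add_le _ _
    refine (h4 _ _ (hsm _)).trans ?_
    refine (add_le_add h3 hsum).trans ?_
    rw [← ENNReal.ofReal_add (by positivity) (by positivity)]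
    refine hkey _ (le_of_eq ?_)
    have h5 : γ * (η * φ * t i ^ 2) = η * φ * t m ^ 2 := by
      rw [← hγt]
      ring
    rw [h5]
    ring

end Pool.Agent.H39.BE
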