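import Pool.Agent.H39.BE.Sec
import Pool.Agent.H39.BE.Two
import Pool.Agent.H43.UP.Fin

/-!
# THEOREM BEAU: at a recurrent critical point there are no annuli of the ratio `M2(d, θ)` at small scales

`geo_u`, `sec_u`, `two_lv`, `up_end`.
-/

set_option autoImplicit false

open Filter Topology Polynomial Metric Set MeasureTheory

namespace Pool.Agent.H39.BE

open Pool.Agent.H61.TT Pool.Agent.H57.CP Pool.Agent.H78.NS Pool.Agent.H18.UP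

/-- the uniform geometry -/
def GeoU (d : ℕ) (θ : ℝ) : Prop := ∃ K : ℝ, 1 ≤ K ∧ ∀ η M : ℝ, 0 < η → 0 < M → ∃ M2 : ℝ, 0 < M2 ∧
  ∀ {a b : Polynomial ℂ} {J : Set ℂ} {δ0 : ℝ}, Geo d a b J δ0 → Rng a b J θ → ∀ δ : ℝ, 0 < δ → ∀ c0 ∈ J, Cr a b c0 →
    Rcr a b c0 → FatM a b J M2 c0 →
    ∃ (ρ : ℝ) (V : Set ℂ) (ι : Type) (_ : Countable ι) (W : ι → Set ℂ) (m : ι → ℕ) (i0 : ι) (k2 p : ℕ) (q2 z2 α : ℂ) (t1 s1 e2 t2 : ℝ),
      (∀ Z : Set ℂ, MeasurableSet Z → (∀ y, b.eval y ≠ 0 → gg a b y ∈ Z → y ∈ Z) → V ⊆ Z →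
        Pool.Agent.H43.UP.Dat d a b Z V c0 ρ K η ι W m i0) ∧
      Cen a b J c0 ρ M K (K * kp a b c0) δ V (W i0) (m i0) k2 p q2 z2 α t1 s1 e2 t2 ∧ V ⊆ ball c0 δ

theorem no_fatM {d : ℕ} {θ : ℝ} (hgeo : GeoU d θ) : ∃ M2 : ℝ, 0 < M2 ∧
    ∀ {a b : Polynomial ℂ} {J : Set ℂ} {δ0 : ℝ}, Geo d a b J δ0 → Rng a b J θ →
    ∀ {Z : Set ℂ} {c0 : ℂ} {δ1 R C : ℝ} {q r K : ℂ → ℂ → ℂ} {Y : ℂ → ℂ} {N : ℕ} {hh X : ℕ → ℂ → ℂ},
      KV a b J Z c0 δ1 R C q r K Y N hh X → Rcr a b c0 → ¬ FatM a b J M2 c0 := by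
  obtain ⟨Kc, hKc, hgeo⟩ := hgeo
  obtain ⟨η, hη, hend⟩ := Pool.Agent.H43.UP.up_end hKc
  obtain ⟨M, hM, hKM, hsec⟩ := sec_u (η := η / 12) (Kc := Kc) (by positivity) hKc
  obtain ⟨M2, hM2, hg⟩ := hgeo η M hη hM
  refine ⟨M2, hM2, ?_⟩
  intro a b J δ0 hG hR Z c0 δ1 R C q r K Y N hh X hK hr hF
  obtain ⟨δ, C', hδ, hC', hlv⟩ := hsec hG hK
  have hZi : ∀ y, b.eval y ≠ 0 → gg a b y ∈ Z → y ∈ Z := fun y hb hy => hK.Zp ⟨hb, hy⟩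
  have H : ∀ δ' : ℝ, 0 < δ' → ∃ (ρ t1 : ℝ) (V C0 : Set ℂ) (D P : ℂ → ℂ) (A : ℕ → ℂ),
      (∃ (ι : Type) (_ : Countable ι) (W : ι → Set ℂ) (m : ι → ℕ) (i0 : ι), C0 = W i0 ∧
        Pool.Agent.H43.UP.Dat d a b Z V c0 ρ Kc η ι W m i0) ∧ V ⊆ ball c0 δ' ∧ IsOpen V ∧
      V ⊆ Z ∧ ball c0 ρ ⊆ V ∧ 0 < t1 ∧ t1 ≤ ρ ∧ C0 ⊆ V ∧ MeasurableSet C0 ∧ ball c0 t1 ⊆ C0 ∧
      LV a b Z V C0 c0 ρ t1 (η / 12) C' N hh D P A := by
    intro δ' hδ'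
    obtain ⟨ρ, V, ι, hι, W, m, i0, k2, p, q2, z2, α, t1, s1, e2, t2, hDat, hCen, hVδ⟩ :=
      hg hG hR (min δ' (min δ δ1)) (lt_min hδ' (lt_min hδ hK.hδ)) c0 hK.cJ hK.c0c hr hF
    have hV1 : V ⊆ ball c0 δ1 := hVδ.trans (ball_subset_ball ((min_le_right _ _).trans (min_le_right _ _)))
    have hD := hDat Z hK.Zm hZi (hV1.trans hK.Zb)
    have hCen' : Cen a b J c0 ρ M Kc (Kc * kp a b c0) δ V (W i0) (m i0) k2 p q2 z2 α t1 s1 e2 t2 :=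
      { hCen with
        hρδ := hCen.hρδ.trans ((min_le_right _ _).trans (min_le_left _ _))
        t2δ := hCen.t2δ.trans ((min_le_right _ _).trans (min_le_left _ _)) }
    obtain ⟨D, P, A, hL⟩ := hlv ρ V (W i0) (m i0) k2 p q2 z2 α t1 s1 e2 t2 hD.Vo hD.Vb hD.Vs hV1 (hD.WV i0)
      (hD.Wo i0).measurableSet hCen'
    have hts : t1 ≤ s1 := by
      by_contra h1
      rw [not_le] at h1
      have hs : 0 < s1 := by
        have h2 := hCen.out hCen.cC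
        rw [mem_ball, dist_self] at h2
        exact h2
      have h2 : c0 + (s1 : ℂ) ∈ ball c0 t1 := by
        rw [mem_ball_iff_norm, add_sub_cancel_left, Complex.norm_real, Real.norm_of_nonneg hs.le]
        exact h1
      have h3 := hCen.out (hCen.inn h2)
      rw [mem_ball_iff_norm, add_sub_cancel_left, Complex.norm_real, Real.norm_of_nonneg hs.le] at h3
      exact lt_irrefl _ h3
    have htρ : t1 ≤ ρ := by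
      have h1 := hCen.s1ρ
      have h2 : 1 ≤ M := hKc.trans hKM
      have h3 : 0 < s1 := hCen.t1p.trans_le hts
      nlinarith
    exact ⟨ρ, t1, V, W i0, D, P, A, ⟨ι, hι, W, m, i0, rfl, hD⟩, hVδ.trans (ball_subset_ball (min_le_left _ _)), hD.Vo,
      hV1.trans hK.Zb, hD.Vb, hCen.t1p, htρ, hD.WV i0, (hD.Wo i0).measurableSet, hCen.inn, hL⟩
  obtain ⟨ρ, V, C0, D, P, ⟨ι, hι, W, m, i0, hC0, hDat⟩, hDD⟩ := two_lv hG.rt hK.Zm hZi (by positivity) hC'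
    (kp_pos hG hK.cJ hK.c0c) hK.hi H
  subst hC0
  have h12 : 12 * (η / 12) = η := by ring
  rw [h12] at hDD
  exact hend hDat hDD

end Pool.Agent.H39.BE
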