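import Pool.Agent.H39.BE.OA
import Pool.Agent.H43.UP.S2C

/-!
# THEOREM BEAU: the poles of `D` in `V` (copy of H43/UP/S2C with the constant `C1`)
-/

set_option autoImplicit false

open Filter Topology Polynomial Metric Set MeasureTheory

namespace Pool.Agent.H39.BE

open Pool.Agent.H61.TT Pool.Agent.H57.CP Pool.Agent.H78.NS Pool.Agent.H18.UP
open Pool.Agent.H43.UP (So LC Tq DS px So_tel So_sub LC_sub td_succ)

variable {d : ℕ} {a b : Polynomial ℂ} {J V C0 Z : Set ℂ} {c0 q2 z2 α : ℂ} {ρ M Kc C1 R t1 s1 t2 δ1 C : ℝ} {n n' p : ℕ}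
  {q r K : ℂ → ℂ → ℂ} {Y : ℂ → ℂ}

private theorem s2c_px (H : Pool.Agent.H66.UP.KD a b J Z c0 δ1 R C q r K Y)
    (hV1 : V ⊆ ball c0 δ1) {x : ℂ} (hx : x ∈ J) : DifferentiableOn ℂ (fun w => px V r x w) V := by
  unfold px
  refine DifferentiableOn.add ?_ ((H.rh x hx).mono hV1)
  by_cases h : x ∈ V
  · simp only [if_pos h]
    exact differentiableOn_const _
  · simp only [if_neg h]
    intro w hw
    have hne : w - x ≠ 0 := sub_ne_zero.2 fun e => h (e ▸ hw)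
    have h1 : DifferentiableAt ℂ (fun w : ℂ => w - x) w := differentiableAt_id.sub_const x
    exact ((differentiableAt_const (1 : ℂ)).div h1 hne).differentiableWithinAt

theorem p_diff (H : Pool.Agent.H66.UP.KD a b J Z c0 δ1 R C q r K Y) (O : OB a b J V C0 c0 ρ M Kc C1 R n n' p q2 z2 α t1 s1 t2)
    (hV1 : V ⊆ ball c0 δ1) (N : ℕ) : DifferentiableOn ℂ (DS a b (gg a b c0) q2 z2 n N (px V r)) V := by
  unfold DS LC So
  refine DifferentiableOn.add (DifferentiableOn.add ?_ ?_) ?_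
  · refine DifferentiableOn.fun_sum fun i hi => ?_
    exact (s2c_px H hV1 (O.vJ i (Finset.mem_range.1 hi).le)).const_mul _
  · exact (s2c_px H hV1 O.qJ).const_mul _
  · refine DifferentiableOn.const_mul ?_ _
    refine DifferentiableOn.fun_sum fun i _ => ?_
    exact (s2c_px H hV1 (O.zJ i)).const_mul _

private theorem s2c_zV (O : OB a b J V C0 c0 ρ M Kc C1 R n n' p q2 z2 α t1 s1 t2) (i : ℕ)
    (hi : (gg a b)^[i] z2 ∈ V) : (gg a b)^[i] z2 = α := by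
  by_cases h : i < n'
  · exact absurd hi (O.zV i h)
  · obtain ⟨j, rfl⟩ := Nat.exists_eq_add_of_le (not_lt.1 h)
    have h1 : (gg a b)^[n' + j] z2 = (gg a b)^[j] α := by
      rw [add_comm, Function.iterate_add_apply, O.zα]
    have hp : Function.IsPeriodicPt (gg a b) p α := O.αp
    rw [h1] at hi ⊢
    rw [← hp.iterate_mod_apply j] at hi ⊢
    by_cases h0 : j % p = 0
    · rw [h0]
      rfl
    · exact absurd hi (O.αn _ (Nat.pos_of_ne_zero h0) (Nat.mod_lt _ O.pp))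

open Classical in
theorem pol_eq (H : Pool.Agent.H66.UP.KD a b J Z c0 δ1 R C q r K Y) (O : OB a b J V C0 c0 ρ M Kc C1 R n n' p q2 z2 α t1 s1 t2)
    (hV1 : V ⊆ ball c0 δ1) (s : ℕ) : ∃ S : ℂ, ‖S‖ ≤ 2 * ‖(tD a b n' z2)⁻¹‖ ∧ ∀ w ∈ V, (w = q2 → q2 ∉ V) → w ≠ α →
    DS a b (gg a b c0) q2 z2 n (n' + p * s) q w - DS a b (gg a b c0) q2 z2 n (n' + p * s) (px V r) w =
      (if q2 ∈ V then (tD a b n (gg a b c0))⁻¹ * (1 - Tq a b (gg a b c0) q2 z2 n) / (w - q2) else 0) +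
      Tq a b (gg a b c0) q2 z2 n * (tD a b n (gg a b c0))⁻¹ * (S / (w - α)) := by
  obtain ⟨S, hS, hSo⟩ := So_V O s
  refine ⟨S, hS, fun w hw hwq hwα => ?_⟩
  have hq : w ≠ q2 := fun e => hwq e (e ▸ hw)
  have key : ∀ x ∈ J, w ≠ x → q x w - px V r x w = if x ∈ V then 1 / (w - x) else 0 := by
    intro x hx hne
    rw [H.rq x hx w (hV1 hw) hne]
    unfold px
    split_ifs <;> ring
  have e1 : DS a b (gg a b c0) q2 z2 n (n' + p * s) q w -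
      DS a b (gg a b c0) q2 z2 n (n' + p * s) (px V r) w =
      LC a b (gg a b c0) q2 z2 n (n' + p * s) (fun x => q x w - px V r x w) :=
    (LC_sub _ _ _ _).symm
  rw [e1]
  unfold LC
  have e2 : So a b (gg a b c0) n (fun x => q x w - px V r x w) = 0 := by
    unfold So
    refine Finset.sum_eq_zero fun i hi => ?_
    have hi' := Finset.mem_range.1 hi
    have hv := O.vV i hi'
    show (tD a b i (gg a b c0))⁻¹ * (q ((gg a b)^[i] (gg a b c0)) w -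
      px V r ((gg a b)^[i] (gg a b c0)) w) = 0
    rw [key _ (O.vJ i hi'.le) (fun e => hv (e ▸ hw)), if_neg hv, mul_zero]
  have e3 : So a b z2 (n' + p * s) (fun x => q x w - px V r x w) = S * (1 / (w - α)) := by
    rw [← hSo fun x => 1 / (w - x)]
    unfold So
    refine Finset.sum_congr rfl fun i _ => ?_
    congr 1
    refine key _ (O.zJ i) fun e => ?_
    have h1 : (gg a b)^[i] z2 ∈ V := e ▸ hw
    exact hwα (e.trans (s2c_zV O i h1))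
  have e4 : (fun x => q x w - px V r x w) q2 = if q2 ∈ V then 1 / (w - q2) else 0 :=
    key q2 O.qJ hq
  rw [e2, e3, e4]
  split_ifs with h
  · ring
  · ring

private theorem s2c_enorm (y w : ℂ) : ‖(1 : ℂ) / (w - y)‖ₑ = ENNReal.ofReal (‖w - y‖⁻¹) := by
  rw [← ofReal_norm, norm_div, norm_one, one_div]

private theorem s2c_meas (y : ℂ) : Measurable fun w : ℂ => (1 : ℂ) / (w - y) :=
  measurable_const.div (measurable_id.sub_const y)

private theorem s2c_lint (c y : ℂ) {s : ℝ} (hs : 0 < s) :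
    ∫⁻ w in ball c s, ‖(1 : ℂ) / (w - y)‖ₑ ≤ ENNReal.ofReal (3 * Real.pi * s) := by
  simp_rw [s2c_enorm]
  exact Pool.Agent.H79.ES.eb_ker c y hs

private theorem s2c_ae (y : ℂ) (W : Set ℂ) : ∀ᵐ w ∂(volume.restrict W), w ≠ y := by
  refine ae_restrict_of_ae ?_
  rw [ae_iff]
  simp

private theorem s2c_num (O : OB a b J V C0 c0 ρ M Kc C1 R n n' p q2 z2 α t1 s1 t2) :
    0 < Real.pi ∧ Real.pi < 3.15 ∧ 1 ≤ M ∧ 1 ≤ Kc ∧ 0 < t1 ∧ M * t1 ≤ ρ :=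
  ⟨Real.pi_pos, Real.pi_lt_d2, O.hM, O.hK, O.t1p,
    (mul_le_mul_of_nonneg_left O.ts (zero_le_one.trans O.hM)).trans O.sρ⟩

private theorem s2c_gen (H : Pool.Agent.H66.UP.KD a b J Z c0 δ1 R C q r K Y)
    (O : OB a b J V C0 c0 ρ M Kc C1 R n n' p q2 z2 α t1 s1 t2)
    (hV1 : V ⊆ ball c0 δ1) (s : ℕ) {W : Set ℂ} (hW : MeasurableSet W) (hWV : W ⊆ V) {IA : ℝ}
    (hIA : 0 ≤ IA) (hI : ∫⁻ w in W, ‖(1 : ℂ) / (w - c0)‖ₑ ≤ ENNReal.ofReal IA) :
    ∃ a' : ℝ, (0 ≤ a' ∧ a' * ρ ≤ 2 * C1 * t1 ^ 2) ∧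
      ∫⁻ w in W, ‖DS a b (gg a b c0) q2 z2 n (n' + p * s) q w -
        DS a b (gg a b c0) q2 z2 n (n' + p * s) (px V r) w‖ₑ ≤
      ENNReal.ofReal (a' * IA + 12 * Real.pi * (Kc ^ 2 * C1) / M * t1 ^ 2) := by
  classical
  obtain ⟨S, hS, hSe⟩ := pol_eq H O hV1 s
  obtain ⟨hπ0, hπ, hM, hK, ht0, ht1⟩ := s2c_num O
  have hρ := O.hρ
  have ht2 := O.t2p
  have hC1 := O.hC1
  have hM0 : 0 < M := by linarith
  have hT := Tq_le O
  obtain ⟨B0, hB0⟩ : ∃ B0 : ℂ, B0 = (tD a b n (gg a b c0))⁻¹ := ⟨_, rfl⟩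
  obtain ⟨T, hTd⟩ : ∃ T : ℂ, T = Tq a b (gg a b c0) q2 z2 n := ⟨_, rfl⟩
  rw [← hB0, ← hTd] at hSe
  rw [← hTd] at hT
  have hB := O.B
  rw [← hB0] at hB
  obtain ⟨a', ha'⟩ : ∃ a' : ℝ, a' = if q2 ∈ V then 2 * ‖B0‖ else 0 := ⟨_, rfl⟩
  have ha0 : 0 ≤ a' := by
    rw [ha']
    split_ifs <;> positivity
  have ha1 : a' * ρ ≤ 2 * C1 * t1 ^ 2 := by
    rw [ha']
    split_ifs with h
    · rcases O.cas with h1 | h1
      · exact absurd h h1.1
      · rw [h1.2] at hB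
        linarith
    · rw [zero_mul]
      positivity
  have hT1 : ‖T‖ ≤ 1 := hT.trans (by rw [div_le_one hM0]; exact O.hKM)
  have h1T : ‖1 - T‖ ≤ 2 := by
    refine (norm_sub_le _ _).trans ?_
    rw [norm_one]
    linarith
  have hb0 : 0 ≤ ‖T‖ * ‖B0‖ * ‖S‖ := by positivity
  refine ⟨a', ⟨ha0, ha1⟩, ?_⟩
  have h1 : ∫⁻ w in W, ‖DS a b (gg a b c0) q2 z2 n (n' + p * s) q w -
      DS a b (gg a b c0) q2 z2 n (n' + p * s) (px V r) w‖ₑ ≤
      ∫⁻ w in W, (ENNReal.ofReal a' * ‖(1 : ℂ) / (w - c0)‖ₑ +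
        ENNReal.ofReal (‖T‖ * ‖B0‖ * ‖S‖) * ‖(1 : ℂ) / (w - α)‖ₑ) := by
    refine lintegral_mono_ae ?_
    filter_upwards [ae_restrict_mem hW, s2c_ae q2 W, s2c_ae α W] with w hw hw1 hw2
    rw [hSe w (hWV hw) (fun e => absurd e hw1) hw2]
    refine (enorm_add_le _ _).trans (add_le_add ?_ (le_of_eq ?_))
    · rw [ha']
      split_ifs with h
      · rcases O.cas with h2 | h2
        · exact absurd h h2.1
        · rw [h2.1]
          have e1 : B0 * (1 - T) / (w - c0) = (B0 * (1 - T)) * (1 / (w - c0)) := by ring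
          rw [e1, enorm_mul]
          refine mul_le_mul_left ?_ _
          rw [← ofReal_norm]
          refine ENNReal.ofReal_le_ofReal ?_
          rw [norm_mul, mul_comm]
          exact mul_le_mul_of_nonneg_right h1T (norm_nonneg _)
      · simp
    · have e1 : T * B0 * (S / (w - α)) = (T * B0 * S) * (1 / (w - α)) := by ring
      rw [e1, enorm_mul]
      congr 1
      rw [← ofReal_norm, norm_mul, norm_mul]
  refine h1.trans ?_
  rw [lintegral_add_left ((s2c_meas c0).enorm.const_mul _), lintegral_const_mul _ (s2c_meas c0).enorm,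
    lintegral_const_mul _ (s2c_meas α).enorm]
  have h2 : ∫⁻ w in W, ‖(1 : ℂ) / (w - α)‖ₑ ≤ ENNReal.ofReal (6 * Real.pi * ρ) := by
    refine (lintegral_mono_set (hWV.trans O.Vs)).trans
      ((s2c_lint c0 α (by linarith)).trans (le_of_eq ?_))
    congr 1
    ring
  have h3 : ENNReal.ofReal a' * ∫⁻ w in W, ‖(1 : ℂ) / (w - c0)‖ₑ ≤ ENNReal.ofReal (a' * IA) := by
    rw [ENNReal.ofReal_mul ha0]
    exact mul_le_mul_right hI _
  have h4 : ENNReal.ofReal (‖T‖ * ‖B0‖ * ‖S‖) * ∫⁻ w in W, ‖(1 : ℂ) / (w - α)‖ₑ ≤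
      ENNReal.ofReal (‖T‖ * ‖B0‖ * ‖S‖ * (6 * Real.pi * ρ)) := by
    rw [ENNReal.ofReal_mul hb0]
    exact mul_le_mul_right h2 _
  refine (add_le_add h3 h4).trans ?_
  rw [← ENNReal.ofReal_add (by positivity) (by positivity)]
  refine ENNReal.ofReal_le_ofReal (add_le_add le_rfl ?_)
  have h5 : ‖S‖ * ρ ≤ 2 * (Kc * t2) := by
    have h6 := O.be
    calc ‖S‖ * ρ ≤ 2 * ‖(tD a b n' z2)⁻¹‖ * ρ := mul_le_mul_of_nonneg_right hS hρ.le
      _ = 2 * (‖(tD a b n' z2)⁻¹‖ * ρ) := by ring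
      _ ≤ 2 * (Kc * t2) := mul_le_mul_of_nonneg_left h6 (by norm_num)
  calc ‖T‖ * ‖B0‖ * ‖S‖ * (6 * Real.pi * ρ) = 6 * Real.pi * (‖T‖ * (‖B0‖ * (‖S‖ * ρ))) := by ring
    _ ≤ 6 * Real.pi * (Kc / M * (‖B0‖ * (2 * (Kc * t2)))) := by
      refine mul_le_mul_of_nonneg_left ?_ (by positivity)
      refine mul_le_mul hT ?_ (by positivity) (by positivity)
      exact mul_le_mul_of_nonneg_left h5 (norm_nonneg _)
    _ = 12 * Real.pi * Kc ^ 2 / M * (‖B0‖ * t2) := by ring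
    _ ≤ 12 * Real.pi * Kc ^ 2 / M * (C1 * t1 ^ 2) :=
      mul_le_mul_of_nonneg_left hB (by positivity)
    _ = 12 * Real.pi * (Kc ^ 2 * C1) / M * t1 ^ 2 := by ring

theorem pol_V (H : Pool.Agent.H66.UP.KD a b J Z c0 δ1 R C q r K Y) (O : OB a b J V C0 c0 ρ M Kc C1 R n n' p q2 z2 α t1 s1 t2)
    (Vo : IsOpen V) (hV1 : V ⊆ ball c0 δ1) (s : ℕ) :
    ∫⁻ w in V, ‖DS a b (gg a b c0) q2 z2 n (n' + p * s) q w - DS a b (gg a b c0) q2 z2 n (n' + p * s) (px V r) w‖ₑ ≤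
      ENNReal.ofReal (100 * (Kc ^ 2 * C1) / M * ρ ^ 2) := by
  have hρ := O.hρ
  have h0 : ∫⁻ w in V, ‖(1 : ℂ) / (w - c0)‖ₑ ≤ ENNReal.ofReal (6 * Real.pi * ρ) := by
    refine (lintegral_mono_set O.Vs).trans ((s2c_lint c0 c0 (by linarith)).trans (le_of_eq ?_))
    congr 1
    ring
  obtain ⟨a', ⟨ha0, ha⟩, hI⟩ := s2c_gen H O hV1 s Vo.measurableSet subset_rfl (by positivity) h0
  refine hI.trans (ENNReal.ofReal_le_ofReal ?_)
  obtain ⟨hπ0, hπ, hM, hK, ht0, ht1⟩ := s2c_num O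
  have e1 : a' * (6 * Real.pi * ρ) ≤ 12 * Real.pi * C1 * t1 ^ 2 := by
    calc a' * (6 * Real.pi * ρ) = 6 * Real.pi * (a' * ρ) := by ring
      _ ≤ 6 * Real.pi * (2 * C1 * t1 ^ 2) := mul_le_mul_of_nonneg_left ha (by positivity)
      _ = _ := by ring
  have hC1 := O.hC1
  have hK3 : C1 ≤ (Kc ^ 2 * C1) := le_mul_of_one_le_left hC1.le (one_le_pow₀ hK)
  have e2 : t1 ^ 2 ≤ ρ ^ 2 / M := by
    rw [le_div_iff₀ (by linarith)]
    have h1 : (M * t1) ^ 2 ≤ ρ ^ 2 := pow_le_pow_left₀ (by positivity) ht1 2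
    have h2 : t1 ^ 2 * M ≤ (M * t1) ^ 2 := by
      rw [mul_pow, mul_comm]
      refine mul_le_mul_of_nonneg_right ?_ (sq_nonneg _)
      nlinarith
    exact h2.trans h1
  have e3 : 12 * Real.pi * (Kc ^ 2 * C1) / M * t1 ^ 2 ≤ 12 * Real.pi * (Kc ^ 2 * C1) * t1 ^ 2 := by
    refine mul_le_mul_of_nonneg_right (div_le_self (by positivity) hM) (sq_nonneg _)
  have e4 : 12 * Real.pi * C1 * t1 ^ 2 ≤ 12 * Real.pi * (Kc ^ 2 * C1) * t1 ^ 2 :=
    mul_le_mul_of_nonneg_right (mul_le_mul_of_nonneg_left hK3 (by positivity)) (sq_nonneg _)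
  have e5 : 24 * Real.pi * (Kc ^ 2 * C1) * t1 ^ 2 ≤ 100 * (Kc ^ 2 * C1) * (ρ ^ 2 / M) := by
    refine mul_le_mul (mul_le_mul_of_nonneg_right ?_ (by positivity)) e2 (sq_nonneg _)
      (by positivity)
    linarith
  calc a' * (6 * Real.pi * ρ) + 12 * Real.pi * (Kc ^ 2 * C1) / M * t1 ^ 2
      ≤ 24 * Real.pi * (Kc ^ 2 * C1) * t1 ^ 2 := by linarith
    _ ≤ 100 * (Kc ^ 2 * C1) * (ρ ^ 2 / M) := e5
    _ = 100 * (Kc ^ 2 * C1) / M * ρ ^ 2 := by ring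

theorem pol_C (H : Pool.Agent.H66.UP.KD a b J Z c0 δ1 R C q r K Y) (O : OB a b J V C0 c0 ρ M Kc C1 R n n' p q2 z2 α t1 s1 t2)
    (hC : MeasurableSet C0) (hV1 : V ⊆ ball c0 δ1) (s : ℕ) :
    ∫⁻ w in C0, ‖DS a b (gg a b c0) q2 z2 n (n' + p * s) q w - DS a b (gg a b c0) q2 z2 n (n' + p * s) (px V r) w‖ₑ ≤
      ENNReal.ofReal (100 * (Kc ^ 2 * C1) / M * t1 ^ 2) := by
  have hρ := O.hρ
  have hC1 := O.hC1
  have hs1 : 0 < s1 := O.t1p.trans_le O.ts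
  obtain ⟨a', ⟨ha0, ha⟩, hI⟩ := s2c_gen H O hV1 s hC O.CV (by positivity)
    ((lintegral_mono_set O.Cs).trans (s2c_lint c0 c0 hs1))
  refine hI.trans (ENNReal.ofReal_le_ofReal ?_)
  obtain ⟨hπ0, hπ, hM, hK, ht0, ht1⟩ := s2c_num O
  have hM0 : 0 < M := by linarith
  have e1 : a' * (3 * Real.pi * s1) ≤ 6 * Real.pi * (Kc ^ 2 * C1) / M * t1 ^ 2 := by
    have h1 : a' * (M * s1) ≤ 2 * C1 * t1 ^ 2 := (mul_le_mul_of_nonneg_left O.sρ ha0).trans ha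
    have hK3 : C1 ≤ (Kc ^ 2 * C1) := le_mul_of_one_le_left hC1.le (one_le_pow₀ hK)
    calc a' * (3 * Real.pi * s1) = 3 * Real.pi / M * (a' * (M * s1)) := by
          field_simp
      _ ≤ 3 * Real.pi / M * (2 * C1 * t1 ^ 2) := mul_le_mul_of_nonneg_left h1 (by positivity)
      _ = 6 * Real.pi / M * t1 ^ 2 * C1 := by ring
      _ ≤ 6 * Real.pi / M * t1 ^ 2 * (Kc ^ 2 * C1) := mul_le_mul_of_nonneg_left hK3 (by positivity)
      _ = _ := by ring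
  calc a' * (3 * Real.pi * s1) + 12 * Real.pi * (Kc ^ 2 * C1) / M * t1 ^ 2
      ≤ 18 * Real.pi * (Kc ^ 2 * C1) / M * t1 ^ 2 := by
        have : 18 * Real.pi * (Kc ^ 2 * C1) / M * t1 ^ 2 = 6 * Real.pi * (Kc ^ 2 * C1) / M * t1 ^ 2 +
          12 * Real.pi * (Kc ^ 2 * C1) / M * t1 ^ 2 := by ring
        linarith
    _ = (18 * Real.pi) * ((Kc ^ 2 * C1) / M * t1 ^ 2) := by ring
    _ ≤ 100 * ((Kc ^ 2 * C1) / M * t1 ^ 2) := mul_le_mul_of_nonneg_right (by linarith) (by positivity)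
    _ = 100 * (Kc ^ 2 * C1) / M * t1 ^ 2 := by ring

end Pool.Agent.H39.BE
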