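import Pool.Agent.H39.BE.OA
import Pool.Agent.H43.UP.S2B

/-!
# THEOREM BEAU: the error `D - pf D - ∑ hh j * A j` (copy of H43/UP/S2B with the vector `AV`)
-/

set_option autoImplicit false

open Filter Topology Polynomial Metric Set MeasureTheory

namespace Pool.Agent.H39.BE

open Pool.Agent.H61.TT Pool.Agent.H57.CP Pool.Agent.H78.NS Pool.Agent.H18.UP
open Pool.Agent.H43.UP (So LC Tq DS px So_tel So_sub LC_sub td_succ log_le)

variable {d : ℕ} {a b : Polynomial ℂ} {J V C0 Z : Set ℂ} {c0 q2 z2 α : ℂ} {ρ M Kc C1 R t1 s1 t2 δ1 C : ℝ} {n n' p : ℕ}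
  {q r K : ℂ → ℂ → ℂ} {Y : ℂ → ℂ} {N0 : ℕ} {hh X : ℕ → ℂ → ℂ}

private theorem pf_LC (v : ℂ) (N : ℕ) (w : ℂ) :
    pf a b (DS a b v q2 z2 n N q) w = LC a b v q2 z2 n N (fun x => pf a b (q x) w) := by
  simp only [pf, DS, LC, So, add_div, Finset.sum_add_distrib, Finset.sum_div, mul_div_assoc, Finset.mul_sum]
  rw [Finset.sum_comm]
  congr 1
  rw [Finset.sum_comm]

theorem ds_int (H : Pool.Agent.H66.UP.KD a b J Z c0 δ1 R C q r K Y) (O : OB a b J V C0 c0 ρ M Kc C1 R n n' p q2 z2 α t1 s1 t2)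
    (N : ℕ) : IntegrableOn (DS a b (gg a b c0) q2 z2 n N q) Z := by
  have hS : ∀ (x : ℂ) (M' : ℕ), (∀ i < M', (gg a b)^[i] x ∈ J) →
      IntegrableOn (fun w => So a b x M' fun y => q y w) Z := by
    intro x M' hx
    unfold So
    refine integrable_finsetSum _ fun i hi => ?_
    exact (H.qi _ (hx i (Finset.mem_range.1 hi))).const_mul _
  have h1 := hS (gg a b c0) n fun i hi => O.vJ i hi.le
  have h2 := hS z2 N fun i _ => O.zJ i
  have h3 := H.qi _ O.qJ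
  unfold DS LC
  exact (h1.add (h3.const_mul _)).add (h2.const_mul _)

theorem err_eq (h : RatD d a b) (H : Pool.Agent.H66.UP.KD a b J Z c0 δ1 R C q r K Y)
    (O : OB a b J V C0 c0 ρ M Kc C1 R n n' p q2 z2 α t1 s1 t2) (N : ℕ) : ∀ᵐ w : ℂ, w ∈ Z →
    DS a b (gg a b c0) q2 z2 n N q w - pf a b (DS a b (gg a b c0) q2 z2 n N q) w =
      - (tD a b n (gg a b c0))⁻¹ * (K ((gg a b)^[n] (gg a b c0)) w - K q2 w - Tq a b (gg a b c0) q2 z2 n * (K z2 w - K q2 w)) -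
      Tq a b (gg a b c0) q2 z2 n * (tD a b n (gg a b c0))⁻¹ * (tD a b N z2)⁻¹ * K ((gg a b)^[N] z2) w := by
  have e1 : ∀ᵐ w : ℂ, ∀ i : ℕ, i < n → w ∈ Z →
      q ((gg a b)^[i] (gg a b c0)) w - pf a b (q ((gg a b)^[i] (gg a b c0))) w =
        K ((gg a b)^[i] (gg a b c0)) w - K (gg a b ((gg a b)^[i] (gg a b c0))) w / dg a b ((gg a b)^[i] (gg a b c0)) := by
    rw [ae_all_iff]
    intro i
    by_cases hi : i < n
    · filter_upwards [H.step _ (O.vJ i hi.le) (O.vb i hi) (O.vd i hi)] with w hw _ using hw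
    · exact Filter.Eventually.of_forall fun w h' => absurd h' hi
  have e2 : ∀ᵐ w : ℂ, ∀ i : ℕ, w ∈ Z →
      q ((gg a b)^[i] z2) w - pf a b (q ((gg a b)^[i] z2)) w =
        K ((gg a b)^[i] z2) w - K (gg a b ((gg a b)^[i] z2)) w / dg a b ((gg a b)^[i] z2) := by
    rw [ae_all_iff]
    intro i
    exact H.step _ (O.zJ i) (O.zb i) (O.zd i)
  filter_upwards [e1, e2, H.crit q2 O.qJ O.qc, H.val0 c0 H.cJ H.c0c] with w w1 w2 w3 w4 hw
  have w3' := w3 hw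
  have w4' := w4 hw
  rw [pf_LC]
  show LC a b (gg a b c0) q2 z2 n N (fun x => q x w) - _ = _
  rw [← LC_sub]
  have s1 : So a b (gg a b c0) n (fun y => q y w - pf a b (q y) w) =
      K (gg a b c0) w - (tD a b n (gg a b c0))⁻¹ * K ((gg a b)^[n] (gg a b c0)) w :=
    So_tel O.vd _ (fun x => K x w) fun i hi => w1 i hi hw
  have s2 : So a b z2 N (fun y => q y w - pf a b (q y) w) =
      K z2 w - (tD a b N z2)⁻¹ * K ((gg a b)^[N] z2) w :=
    So_tel (fun i _ => O.zd i) _ (fun x => K x w) fun i _ => w2 i hw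
  unfold LC
  rw [s1, s2]
  simp only [w3', w4']
  ring

/-- the vector of the level -/
noncomputable def AV (a b : Polynomial ℂ) (v q2 z2 : ℂ) (n : ℕ) (X : ℕ → ℂ → ℂ) (j : ℕ) : ℂ :=
  - (tD a b n v)⁻¹ * (X j ((gg a b)^[n] v) - X j q2 - Tq a b v q2 z2 n * (X j z2 - X j q2))

private theorem ul_le (O : OB a b J V C0 c0 ρ M Kc C1 R n n' p q2 z2 α t1 s1 t2) :
    ‖(gg a b)^[n] (gg a b c0) - q2‖ ≤ ‖z2 - q2‖ := by
  have hM0 : 0 < M := lt_of_lt_of_le one_pos O.hM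
  have h5 := O.ve
  have h6 := O.zl
  have h7 : Kc * ‖z2 - q2‖ ≤ M * ‖z2 - q2‖ := mul_le_mul_of_nonneg_right O.hKM (norm_nonneg _)
  exact le_of_mul_le_mul_left ((h5.trans h6).trans h7) hM0

/-- the size of the three point error -/
theorem tp_le (O : OB a b J V C0 c0 ρ M Kc C1 R n n' p q2 z2 α t1 s1 t2) {C' : ℝ} (hC' : 0 ≤ C')
    (hvq : (gg a b)^[n] (gg a b c0) ≠ q2) :
    ‖(tD a b n (gg a b c0))⁻¹‖ * (C' * ‖(gg a b)^[n] (gg a b c0) - q2‖ *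
      (1 + Real.log (‖z2 - q2‖ / ‖(gg a b)^[n] (gg a b c0) - q2‖))) ≤ 3 * C' * C1 * Real.sqrt (Kc / M) * t1 ^ 2 := by
  set v := (gg a b)^[n] (gg a b c0) with hv
  set A := (tD a b n (gg a b c0))⁻¹ with hA
  have hM0 : 0 < M := lt_of_lt_of_le one_pos O.hM
  have hK0 : 0 < Kc := lt_of_lt_of_le one_pos O.hK
  have hu : 0 < ‖v - q2‖ := norm_pos_iff.2 (sub_ne_zero.2 hvq)
  have hul : ‖v - q2‖ ≤ ‖z2 - q2‖ := ul_le O
  have hlog := log_le hu hul
  have hsq : Real.sqrt (‖v - q2‖ * ‖z2 - q2‖) ≤ Real.sqrt (Kc / M) * t2 := by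
    rw [← Real.sqrt_sq O.t2p.le, ← Real.sqrt_mul (div_nonneg hK0.le hM0.le)]
    refine Real.sqrt_le_sqrt ?_
    have h5 : ‖v - q2‖ ≤ t2 / M := by
      rw [le_div_iff₀ hM0, mul_comm]; exact O.ve
    have h6 := O.zu
    calc ‖v - q2‖ * ‖z2 - q2‖ ≤ (t2 / M) * (Kc * t2) :=
          mul_le_mul h5 h6 (norm_nonneg _) (div_nonneg O.t2p.le hM0.le)
      _ = Kc / M * t2 ^ 2 := by ring
  have hAB := O.B
  rw [← hA] at hAB
  have hs0 : 0 ≤ Real.sqrt (Kc / M) := Real.sqrt_nonneg _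
  calc ‖A‖ * (C' * ‖v - q2‖ * (1 + Real.log (‖z2 - q2‖ / ‖v - q2‖)))
      = ‖A‖ * C' * (‖v - q2‖ * (1 + Real.log (‖z2 - q2‖ / ‖v - q2‖))) := by ring
    _ ≤ ‖A‖ * C' * (3 * Real.sqrt (‖v - q2‖ * ‖z2 - q2‖)) :=
        mul_le_mul_of_nonneg_left hlog (mul_nonneg (norm_nonneg _) hC')
    _ ≤ ‖A‖ * C' * (3 * (Real.sqrt (Kc / M) * t2)) := by
        refine mul_le_mul_of_nonneg_left ?_ (mul_nonneg (norm_nonneg _) hC')
        linarith
    _ = 3 * C' * Real.sqrt (Kc / M) * (‖A‖ * t2) := by ring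
    _ ≤ 3 * C' * Real.sqrt (Kc / M) * (C1 * t1 ^ 2) := by
        refine mul_le_mul_of_nonneg_left hAB ?_
        positivity
    _ = 3 * C' * C1 * Real.sqrt (Kc / M) * t1 ^ 2 := by ring

theorem av_le (H : KV a b J Z c0 δ1 R C q r K Y N0 hh X)
    (O : OB a b J V C0 c0 ρ M Kc C1 R n n' p q2 z2 α t1 s1 t2) : ∀ j < N0,
    ‖AV a b (gg a b c0) q2 z2 n X j‖ ≤ 3 * C * C1 * t1 ^ 2 := by
  intro j hj
  have hM0 : 0 < M := lt_of_lt_of_le one_pos O.hM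
  have hC0 : 0 ≤ C := zero_le_one.trans H.hC
  have hC1 := O.hC1
  by_cases hvq : (gg a b)^[n] (gg a b c0) = q2
  · unfold AV Tq
    rw [hvq]
    simp only [sub_self, zero_div, zero_mul, mul_zero, norm_zero]
    positivity
  · have h1 := H.tx j hj _ (O.vJ n le_rfl) q2 O.qJ z2 (O.zJ 0) O.Rv O.Rq O.Rz hvq (ul_le O)
    have h2 := tp_le O hC0 hvq
    have h3 : Real.sqrt (Kc / M) ≤ 1 := by
      rw [Real.sqrt_le_one, div_le_one hM0]
      exact O.hKM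
    unfold AV
    rw [neg_mul, norm_neg, norm_mul]
    refine (mul_le_mul_of_nonneg_left h1 (norm_nonneg _)).trans (h2.trans ?_)
    have h4 : 0 ≤ 3 * C * C1 := by positivity
    calc 3 * C * C1 * Real.sqrt (Kc / M) * t1 ^ 2 ≤ 3 * C * C1 * 1 * t1 ^ 2 := by gcongr
      _ = 3 * C * C1 * t1 ^ 2 := by ring

theorem cq_pos : 0 < CQ := (Classical.choose_spec Pool.Agent.H66.UP.ki3).1

theorem err_le (h : RatD d a b) (H : KV a b J Z c0 δ1 R C q r K Y N0 hh X)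
    (O : OB a b J V C0 c0 ρ M Kc C1 R n n' p q2 z2 α t1 s1 t2) (s : ℕ) :
    ∫⁻ w in Z, ‖DS a b (gg a b c0) q2 z2 n (n' + p * s) q w - pf a b (DS a b (gg a b c0) q2 z2 n (n' + p * s) q) w -
      ∑ j ∈ Finset.range N0, hh j w * AV a b (gg a b c0) q2 z2 n X j‖ₑ ≤
      ENNReal.ofReal (3 * CQ * C1 * Real.sqrt (Kc / M) * t1 ^ 2) +
      ENNReal.ofReal (‖(tD a b n (gg a b c0))⁻¹‖ * ‖(tD a b (n' + p * s) z2)⁻¹‖) * ∫⁻ w in Z, ‖K α w‖ₑ := by
  set v := (gg a b)^[n] (gg a b c0) with hv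
  set A := (tD a b n (gg a b c0))⁻¹ with hA
  set B := (tD a b (n' + p * s) z2)⁻¹ with hB
  set T := Tq a b (gg a b c0) q2 z2 n with hT
  have hT1 : ‖T‖ ≤ 1 := (Tq_le O).trans (by
    rw [div_le_one (lt_of_lt_of_le one_pos O.hM)]; exact O.hKM)
  have e1 := err_eq h H.toKD O (n' + p * s)
  rw [z_per O s] at e1
  obtain ⟨E, hE⟩ : ∃ E : ℂ → ℂ, E = fun w => K v w - K q2 w - T * (K z2 w - K q2 w) -
      ∑ j ∈ Finset.range N0, hh j w * (X j v - X j q2 - T * (X j z2 - X j q2)) := ⟨_, rfl⟩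
  -- the pointwise bound
  have h1 : ∫⁻ w in Z, ‖DS a b (gg a b c0) q2 z2 n (n' + p * s) q w -
      pf a b (DS a b (gg a b c0) q2 z2 n (n' + p * s) q) w -
      ∑ j ∈ Finset.range N0, hh j w * AV a b (gg a b c0) q2 z2 n X j‖ₑ ≤
      ∫⁻ w in Z, (‖A‖ₑ * ‖E w‖ₑ + ENNReal.ofReal (‖A‖ * ‖B‖) * ‖K α w‖ₑ) := by
    refine lintegral_mono_ae ?_
    rw [ae_restrict_iff' H.Zm]
    filter_upwards [e1] with w hw hwZ
    rw [hw hwZ]
    have e2 : ∑ j ∈ Finset.range N0, hh j w * AV a b (gg a b c0) q2 z2 n X j =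
        - A * ∑ j ∈ Finset.range N0, hh j w * (X j v - X j q2 - T * (X j z2 - X j q2)) := by
      rw [Finset.mul_sum]
      refine Finset.sum_congr rfl fun j _ => ?_
      unfold AV
      rw [← hA, ← hT, ← hv]
      ring
    have e3 : - A * (K v w - K q2 w - T * (K z2 w - K q2 w)) - T * A * B * K α w -
        ∑ j ∈ Finset.range N0, hh j w * AV a b (gg a b c0) q2 z2 n X j = - A * E w - T * A * B * K α w := by
      rw [e2, hE]
      ring
    rw [e3]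
    refine (enorm_sub_le).trans ?_
    refine add_le_add ?_ ?_
    · rw [neg_mul, enorm_neg, enorm_mul]
    · rw [enorm_mul]
      refine mul_le_mul_left ?_ _
      rw [← ofReal_norm]
      refine ENNReal.ofReal_le_ofReal ?_
      rw [norm_mul, norm_mul]
      have h5 : ‖T‖ * ‖A‖ ≤ ‖A‖ := by nlinarith [norm_nonneg A]
      exact mul_le_mul_of_nonneg_right h5 (norm_nonneg _)
  refine h1.trans ?_
  have hKm : AEMeasurable (fun w => ENNReal.ofReal (‖A‖ * ‖B‖) * ‖K α w‖ₑ) (volume.restrict Z) :=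
    ((H.Ki α O.αJ).1.enorm).const_mul _
  rw [lintegral_add_right' _ hKm]
  have hfin : ENNReal.ofReal (‖A‖ * ‖B‖) ≠ ⊤ := ENNReal.ofReal_ne_top
  rw [lintegral_const_mul' _ _ hfin]
  have hAfin : ‖A‖ₑ ≠ ⊤ := enorm_ne_top
  rw [lintegral_const_mul' _ _ hAfin]
  refine add_le_add ?_ le_rfl
  -- the first term
  by_cases hvq : v = q2
  · have hT0 : T = 0 := by
      rw [hT, Tq, ← hv, hvq, sub_self, zero_div]
    rw [hE]
    simp only [hT0, hvq, sub_self, zero_mul, mul_zero, Finset.sum_const_zero, enorm_zero, lintegral_const, zero_le]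
  · have htri := H.tv v (O.vJ n le_rfl) q2 O.qJ z2 (O.zJ 0) O.Rv O.Rq O.Rz hvq (ul_le O)
    have hTe : (v - q2) / (z2 - q2) = T := rfl
    rw [hTe] at htri
    have hEi : ∫⁻ w in Z, ‖E w‖ₑ ≤ ENNReal.ofReal (CQ * ‖v - q2‖ * (1 + Real.log (‖z2 - q2‖ / ‖v - q2‖))) := by
      rw [hE]
      exact htri
    refine (mul_le_mul_right hEi _).trans ?_
    rw [← ofReal_norm, ← ENNReal.ofReal_mul (norm_nonneg _)]
    exact ENNReal.ofReal_le_ofReal (tp_le O cq_pos.le hvq)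

end Pool.Agent.H39.BE
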