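import Pool.Agent.H39.BE.OE

/-!
# THEOREM BEAU: the value `P c0` (copy of H43/UP/S2E; the constants of the map are killed by the scale `ρ`)
-/

set_option autoImplicit false

open Filter Topology Polynomial Metric Set MeasureTheory

namespace Pool.Agent.H39.BE

open Pool.Agent.H61.TT Pool.Agent.H57.CP Pool.Agent.H78.NS Pool.Agent.H18.UP
open Pool.Agent.H43.UP (So LC Tq DS px So_tel So_sub LC_sub td_succ log_le)

variable {d : ℕ} {a b : Polynomial ℂ} {J V C0 Z : Set ℂ} {c0 q2 z2 α : ℂ} {ρ M Kc C1 R t1 s1 t2 δ1 C : ℝ} {n n' p : ℕ}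
  {q r K : ℂ → ℂ → ℂ} {Y : ℂ → ℂ}

private theorem px_out (H : Pool.Agent.H66.UP.KD a b J Z c0 δ1 R C q r K Y) {x : ℂ} (hx : x ∈ J)
    (hxV : x ∉ V) (hc : c0 ∈ V) : px V r x c0 = q x c0 := by
  have h1 : c0 ≠ x := fun h => hxV (h ▸ hc)
  rw [px, if_neg hxV, H.rq x hx c0 (mem_ball_self H.hδ) h1]

private theorem so_congr {x : ℂ} {N : ℕ} {Φ Ψ : ℂ → ℂ}
    (h : ∀ i < N, Φ ((gg a b)^[i] x) = Ψ ((gg a b)^[i] x)) : So a b x N Φ = So a b x N Ψ := by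
  unfold So
  exact Finset.sum_congr rfl fun i hi => by rw [h i (Finset.mem_range.1 hi)]

private theorem so_neg (x : ℂ) (N : ℕ) (Φ : ℂ → ℂ) :
    So a b x N (fun y => - Φ y) = - So a b x N Φ := by
  unfold So
  rw [← Finset.sum_neg_distrib]
  exact Finset.sum_congr rfl fun i _ => by ring

private theorem so_v (H : Pool.Agent.H66.UP.KD a b J Z c0 δ1 R C q r K Y)
    (O : OB a b J V C0 c0 ρ M Kc C1 R n n' p q2 z2 α t1 s1 t2) :
    So a b (gg a b c0) n (fun x => px V r x c0) = (derivative (ww a b)).eval c0 / b.eval c0 ^ 2 +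
      (tD a b n (gg a b c0))⁻¹ * Y ((gg a b)^[n] (gg a b c0)) := by
  have h1 : So a b (gg a b c0) n (fun x => px V r x c0) =
      So a b (gg a b c0) n (fun x => q x c0) :=
    so_congr fun i hi => px_out H (O.vJ i hi.le) (O.vV i hi) O.cV
  have h2 := So_tel (a := a) (b := b) (x := gg a b c0) (N := n) (fun i hi => O.vd i hi)
    (fun x => - q x c0) Y (fun i hi => (H.Ys _ (O.vJ i hi.le) (O.vb i hi) (O.vd i hi)).symm)
  rw [so_neg (Φ := fun x => q x c0), H.Yv] at h2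
  rw [h1]
  linear_combination -h2

private theorem so_z (H : Pool.Agent.H66.UP.KD a b J Z c0 δ1 R C q r K Y)
    (O : OB a b J V C0 c0 ρ M Kc C1 R n n' p q2 z2 α t1 s1 t2) (s : ℕ) (hα : c0 ≠ α) :
    ∃ S : ℂ, ‖S‖ ≤ 2 * ‖(tD a b n' z2)⁻¹‖ ∧
      So a b z2 (n' + p * s) (fun x => px V r x c0) = - Y z2 +
        (tD a b (n' + p * s) z2)⁻¹ * Y α - S * (1 / (c0 - α)) := by
  classical
  obtain ⟨S, hS, h0⟩ := So_V O s
  refine ⟨S, hS, ?_⟩
  have h1 : So a b z2 (n' + p * s) (fun x => px V r x c0) =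
      So a b z2 (n' + p * s)
        (fun x => q x c0 - if x ∈ V then (q x c0 - px V r x c0) else 0) := by
    refine so_congr fun i _ => ?_
    by_cases hV : (gg a b)^[i] z2 ∈ V
    · rw [if_pos hV]
      ring
    · rw [if_neg hV, sub_zero]
      exact px_out H (O.zJ i) hV O.cV
  have h2 := So_tel (a := a) (b := b) (x := z2) (N := n' + p * s) (fun i _ => O.zd i)
    (fun x => - q x c0) Y (fun i _ => (H.Ys _ (O.zJ i) (O.zb i) (O.zd i)).symm)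
  rw [so_neg (Φ := fun x => q x c0), z_per O s] at h2
  have h3 := h0 (fun x => q x c0 - px V r x c0)
  have h4 : q α c0 - px V r α c0 = 1 / (c0 - α) := by
    rw [px, if_pos O.αV, H.rq α O.αJ c0 (mem_ball_self H.hδ) hα]
    ring
  have h5 := So_sub (a := a) (b := b) z2 (n' + p * s) (fun x => q x c0)
    (fun x => if x ∈ V then (q x c0 - px V r x c0) else 0)
  rw [h1, h5, h3]
  simp only [h4]
  linear_combination -h2

private theorem t_le (O : OB a b J V C0 c0 ρ M Kc C1 R n n' p q2 z2 α t1 s1 t2) :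
    M * t1 ≤ ρ ∧ t1 ≤ 1 := by
  have hM : 0 < M := lt_of_lt_of_le one_pos O.hM
  have h1 : M * t1 ≤ ρ := (mul_le_mul_of_nonneg_left O.ts hM.le).trans O.sρ
  refine ⟨h1, ?_⟩
  have h2 : 1 * t1 ≤ M * t1 := mul_le_mul_of_nonneg_right O.hM O.t1p.le
  have h3 := O.hρ1
  linarith

private theorem third {T B S e : ℂ} (hM : 1 ≤ M) (hK : 1 ≤ Kc) (hρ : 0 < ρ) (ht1 : 0 < t1)
    (ht2 : 0 < t2) (hMt : M * t1 ≤ ρ) (hT : ‖T‖ ≤ 1) (hC1 : 0 < C1) (hB : ‖B‖ * t2 ≤ C1 * t1 ^ 2)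
    (hS : ‖S‖ * ρ ≤ 2 * (Kc * t2)) (he : ρ ≤ Kc * ‖e‖) :
    ‖T * B * (S * (1 / e))‖ ≤ 2 * (Kc ^ 2 * C1) / M := by
  have hM0 : 0 < M := lt_of_lt_of_le one_pos hM
  have hK0 : 0 < Kc := lt_of_lt_of_le one_pos hK
  have he0 : 0 < ‖e‖ := by
    by_contra h
    have h1 : ‖e‖ = 0 := le_antisymm (not_lt.1 h) (norm_nonneg _)
    rw [h1, mul_zero] at he
    linarith
  have h1 : ‖S‖ ≤ 2 * (Kc * t2) / ρ := by
    rw [le_div_iff₀ hρ]
    exact hS
  have h2 : 1 / ‖e‖ ≤ Kc / ρ := by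
    rw [div_le_div_iff₀ he0 hρ, one_mul]
    exact he
  have h3 : t1 / ρ ≤ 1 / M := by
    rw [div_le_div_iff₀ hρ hM0, one_mul, mul_comm]
    exact hMt
  have h4 : (t1 / ρ) ^ 2 ≤ 1 / M := by
    calc (t1 / ρ) ^ 2 ≤ (1 / M) ^ 2 := pow_le_pow_left₀ (by positivity) h3 2
      _ ≤ (1 / M) ^ 1 := pow_le_pow_of_le_one (by positivity)
          (by rw [div_le_one hM0]; exact hM) one_le_two
      _ = 1 / M := pow_one _
  have h5 : ‖T * B * (S * (1 / e))‖ = ‖T‖ * (‖B‖ * (‖S‖ * (1 / ‖e‖))) := by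
    rw [norm_mul, norm_mul, norm_mul, norm_div, norm_one, mul_assoc]
  rw [h5]
  calc ‖T‖ * (‖B‖ * (‖S‖ * (1 / ‖e‖))) ≤ 1 * (‖B‖ * (2 * (Kc * t2) / ρ * (Kc / ρ))) := by
        refine mul_le_mul hT ?_ (by positivity) zero_le_one
        refine mul_le_mul_of_nonneg_left ?_ (norm_nonneg _)
        exact mul_le_mul h1 h2 (by positivity) (by positivity)
    _ = (‖B‖ * t2) * (2 * Kc ^ 2 / ρ ^ 2) := by
        field_simp
    _ ≤ (C1 * t1 ^ 2) * (2 * Kc ^ 2 / ρ ^ 2) :=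
        mul_le_mul_of_nonneg_right hB (by positivity)
    _ = 2 * (Kc ^ 2 * C1) * (t1 / ρ) ^ 2 := by
        field_simp
    _ ≤ 2 * (Kc ^ 2 * C1) * (1 / M) := mul_le_mul_of_nonneg_left h4 (by positivity)
    _ = 2 * (Kc ^ 2 * C1) / M := by ring

private theorem case1 (H : Pool.Agent.H66.UP.KD a b J Z c0 δ1 R C q r K Y)
    (O : OB a b J V C0 c0 ρ M Kc C1 R n n' p q2 z2 α t1 s1 t2) :
    ‖(tD a b n (gg a b c0))⁻¹ * (Y ((gg a b)^[n] (gg a b c0)) - Y q2 -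
      Tq a b (gg a b c0) q2 z2 n * (Y z2 - Y q2))‖ ≤ 3 * C * C1 * ρ := by
  have hC0 : 0 < C := lt_of_lt_of_le one_pos H.hC
  have hM0 : 0 < M := lt_of_lt_of_le one_pos O.hM
  have hC1 := O.hC1
  have hρ := O.hρ
  obtain ⟨hMt, ht1⟩ := t_le O
  by_cases hv : (gg a b)^[n] (gg a b c0) = q2
  · have h1 : Tq a b (gg a b c0) q2 z2 n = 0 := by
      unfold Tq
      rw [hv, sub_self, zero_div]
    rw [h1, hv, sub_self, zero_mul, sub_zero, mul_zero, norm_zero]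
    positivity
  · have hul : ‖(gg a b)^[n] (gg a b c0) - q2‖ ≤ ‖z2 - q2‖ := by
      have h1 : M * ‖(gg a b)^[n] (gg a b c0) - q2‖ ≤ M * ‖z2 - q2‖ :=
        (O.ve.trans O.zl).trans (mul_le_mul_of_nonneg_right O.hKM (norm_nonneg _))
      exact le_of_mul_le_mul_left h1 hM0
    have h1 := H.Yt _ (O.vJ n le_rfl) q2 O.qJ z2 (O.zJ 0) O.Rv O.Rq O.Rz hv hul
    have h2 := tp_le O hC0.le hv
    have hTe : Tq a b (gg a b c0) q2 z2 n =
      ((gg a b)^[n] (gg a b c0) - q2) / (z2 - q2) := rfl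
    rw [hTe, norm_mul]
    refine (mul_le_mul_of_nonneg_left h1 (norm_nonneg _)).trans (h2.trans ?_)
    have h3 : Real.sqrt (Kc / M) ≤ 1 := by
      rw [Real.sqrt_le_one, div_le_one hM0]
      exact O.hKM
    have h8 : t1 ^ 2 ≤ ρ := by
      have h9 : t1 ≤ ρ := by
        have h10 : 1 * t1 ≤ M * t1 := mul_le_mul_of_nonneg_right O.hM O.t1p.le
        linarith
      have h11 := O.t1p
      nlinarith
    calc 3 * C * C1 * Real.sqrt (Kc / M) * t1 ^ 2 ≤ 3 * C * C1 * 1 * ρ := by gcongr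
      _ = 3 * C * C1 * ρ := by ring

private theorem case2 (H : Pool.Agent.H66.UP.KD a b J Z c0 δ1 R C q r K Y)
    (O : OB a b J V C0 c0 ρ M Kc C1 R n n' p q2 z2 α t1 s1 t2) (ht : t2 = ρ) (x : ℂ) :
    ‖(tD a b n (gg a b c0))⁻¹ * (Y ((gg a b)^[n] (gg a b c0)) +
      (1 - Tq a b (gg a b c0) q2 z2 n) * x - Tq a b (gg a b c0) q2 z2 n * Y z2)‖ ≤
        C1 * ρ * (2 * C + 2 * ‖x‖) := by
  have hC0 : 0 < C := lt_of_lt_of_le one_pos H.hC
  have hM0 : 0 < M := lt_of_lt_of_le one_pos O.hM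
  have hC1 := O.hC1
  have hρ := O.hρ
  obtain ⟨hMt, ht1⟩ := t_le O
  have hT : ‖Tq a b (gg a b c0) q2 z2 n‖ ≤ 1 :=
    (Tq_le O).trans (by rw [div_le_one hM0]; exact O.hKM)
  have hB : ‖(tD a b n (gg a b c0))⁻¹‖ ≤ C1 * ρ := by
    have h1 := O.B
    rw [ht] at h1
    have h2 : ‖(tD a b n (gg a b c0))⁻¹‖ * ρ ≤ C1 * ρ * ρ := by
      refine h1.trans ?_
      have h3 : t1 ≤ ρ := by
        have h10 : 1 * t1 ≤ M * t1 := mul_le_mul_of_nonneg_right O.hM O.t1p.le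
        linarith
      have h4 : t1 ^ 2 ≤ ρ ^ 2 := pow_le_pow_left₀ O.t1p.le h3 2
      calc C1 * t1 ^ 2 ≤ C1 * ρ ^ 2 := mul_le_mul_of_nonneg_left h4 hC1.le
        _ = C1 * ρ * ρ := by ring
    exact le_of_mul_le_mul_right h2 O.hρ
  have hYv := H.Yb _ (O.vJ n le_rfl) O.Rv
  have hYz : ‖Y z2‖ ≤ C := H.Yb z2 (O.zJ 0) O.Rz
  have h1T : ‖1 - Tq a b (gg a b c0) q2 z2 n‖ ≤ 2 := by
    refine (norm_sub_le _ _).trans ?_
    rw [norm_one]
    linarith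
  rw [norm_mul]
  refine mul_le_mul hB ?_ (norm_nonneg _) (by positivity)
  have e1 : ‖(1 - Tq a b (gg a b c0) q2 z2 n) * x‖ ≤ 2 * ‖x‖ := by
    rw [norm_mul]
    exact mul_le_mul_of_nonneg_right h1T (norm_nonneg _)
  have e2 : ‖Tq a b (gg a b c0) q2 z2 n * Y z2‖ ≤ 1 * C := by
    rw [norm_mul]
    exact mul_le_mul hT hYz (norm_nonneg _) zero_le_one
  refine (norm_sub_le _ _).trans ?_
  have e3 := norm_add_le (Y ((gg a b)^[n] (gg a b c0)))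
    ((1 - Tq a b (gg a b c0) q2 z2 n) * x)
  linarith

theorem val (H : Pool.Agent.H66.UP.KD a b J Z c0 δ1 R C q r K Y) (O : OB a b J V C0 c0 ρ M Kc C1 R n n' p q2 z2 α t1 s1 t2)
    (s : ℕ) :
    ‖DS a b (gg a b c0) q2 z2 n (n' + p * s) (px V r) c0 - (derivative (ww a b)).eval c0 / b.eval c0 ^ 2‖ ≤
      3 * C * C1 * ρ + C1 * ρ * (2 * C + 2 * ‖r c0 c0‖) +
        ‖(tD a b n (gg a b c0))⁻¹‖ * ‖(tD a b (n' + p * s) z2)⁻¹‖ * C + 2 * (Kc ^ 2 * C1) / M := by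
  have hC0 : 0 < C := lt_of_lt_of_le one_pos H.hC
  have hM0 : 0 < M := lt_of_lt_of_le one_pos O.hM
  have hK0 : 0 < Kc := lt_of_lt_of_le one_pos O.hK
  obtain ⟨hMt, ht1⟩ := t_le O
  have hα : c0 ≠ α := by
    intro h
    have h1 := O.α1
    rw [← h, sub_self, norm_zero, mul_zero] at h1
    exact absurd O.hρ (not_lt.2 h1)
  have hT : ‖Tq a b (gg a b c0) q2 z2 n‖ ≤ 1 :=
    (Tq_le O).trans (by rw [div_le_one hM0]; exact O.hKM)
  obtain ⟨S, hS, hz⟩ := so_z H O s hα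
  have hv := so_v H O
  have hYα := H.Yb α O.αJ O.Rα
  have h2 : ‖Tq a b (gg a b c0) q2 z2 n * (tD a b n (gg a b c0))⁻¹ *
      ((tD a b (n' + p * s) z2)⁻¹ * Y α)‖ ≤
      ‖(tD a b n (gg a b c0))⁻¹‖ * ‖(tD a b (n' + p * s) z2)⁻¹‖ * C := by
    have e1 : ‖Tq a b (gg a b c0) q2 z2 n * (tD a b n (gg a b c0))⁻¹ *
        ((tD a b (n' + p * s) z2)⁻¹ * Y α)‖ = ‖Tq a b (gg a b c0) q2 z2 n‖ *
        (‖(tD a b n (gg a b c0))⁻¹‖ * ‖(tD a b (n' + p * s) z2)⁻¹‖ * ‖Y α‖) := by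
      rw [norm_mul, norm_mul, norm_mul]
      ring
    rw [e1]
    calc ‖Tq a b (gg a b c0) q2 z2 n‖ *
        (‖(tD a b n (gg a b c0))⁻¹‖ * ‖(tD a b (n' + p * s) z2)⁻¹‖ * ‖Y α‖)
        ≤ 1 * (‖(tD a b n (gg a b c0))⁻¹‖ * ‖(tD a b (n' + p * s) z2)⁻¹‖ * C) :=
          mul_le_mul hT (mul_le_mul_of_nonneg_left hYα (by positivity)) (by positivity)
            zero_le_one
      _ = _ := one_mul _
  have h3 : ‖Tq a b (gg a b c0) q2 z2 n * (tD a b n (gg a b c0))⁻¹ *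
      (S * (1 / (c0 - α)))‖ ≤ 2 * (Kc ^ 2 * C1) / M := by
    refine third O.hM O.hK O.hρ O.t1p O.t2p hMt hT O.hC1 O.B ?_ ?_
    · have e1 : ‖S‖ * ρ ≤ 2 * ‖(tD a b n' z2)⁻¹‖ * ρ := mul_le_mul_of_nonneg_right hS O.hρ.le
      have e2 := O.be
      linarith
    · rw [norm_sub_rev]
      exact O.α1
  have hC1 := O.hC1
  have hρ := O.hρ
  obtain ⟨X, hX, hXb⟩ : ∃ X : ℂ, DS a b (gg a b c0) q2 z2 n (n' + p * s) (px V r) c0 -
      (derivative (ww a b)).eval c0 / b.eval c0 ^ 2 = X +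
      Tq a b (gg a b c0) q2 z2 n * (tD a b n (gg a b c0))⁻¹ *
        ((tD a b (n' + p * s) z2)⁻¹ * Y α) -
      Tq a b (gg a b c0) q2 z2 n * (tD a b n (gg a b c0))⁻¹ * (S * (1 / (c0 - α))) ∧
      ‖X‖ ≤ 3 * C * C1 * ρ + C1 * ρ * (2 * C + 2 * ‖r c0 c0‖) := by
    rcases O.cas with ⟨hqV, hqc⟩ | ⟨hqc, ht⟩
    · refine ⟨(tD a b n (gg a b c0))⁻¹ * (Y ((gg a b)^[n] (gg a b c0)) - Y q2 -
        Tq a b (gg a b c0) q2 z2 n * (Y z2 - Y q2)), ?_, ?_⟩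
      · unfold DS LC
        rw [hv, hz]
        beta_reduce
        rw [px_out H O.qJ hqV O.cV]
        have e1 := H.Yc q2 O.qJ O.qc hqc
        have e2 : q q2 c0 = - Y q2 := by rw [e1, neg_neg]
        rw [e2]
        ring
      · have e1 := case1 H O
        have e2 : 0 ≤ C1 * ρ * (2 * C + 2 * ‖r c0 c0‖) := by positivity
        linarith
    · refine ⟨(tD a b n (gg a b c0))⁻¹ * (Y ((gg a b)^[n] (gg a b c0)) +
        (1 - Tq a b (gg a b c0) q2 z2 n) * r c0 c0 - Tq a b (gg a b c0) q2 z2 n * Y z2), ?_, ?_⟩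
      · have e1 : px V r q2 c0 = r c0 c0 := by
          rw [hqc, px, if_pos O.cV, zero_add]
        unfold DS LC
        rw [hv, hz]
        beta_reduce
        rw [e1]
        ring
      · have e1 := case2 H O ht (r c0 c0)
        have e2 : 0 ≤ 3 * C * C1 * ρ := by positivity
        linarith
  rw [hX]
  refine (norm_sub_le _ _).trans ?_
  have e3 := norm_add_le X (Tq a b (gg a b c0) q2 z2 n * (tD a b n (gg a b c0))⁻¹ *
        ((tD a b (n' + p * s) z2)⁻¹ * Y α))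
  linarith

end Pool.Agent.H39.BE
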