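import Pool.Agent.H39.BE.OC
import Pool.Agent.H39.BE.OV

/-!
# THEOREM BEAU, section II: the function `D` of one level, `M` depends on `η, Kc` only

`C1 = Kc φ`, `φ = kp a b c0`. `M`: `3 CQ Kc √(Kc / M) ≤ η / 2`, `100 Kc ^ 3 / M ≤ η`, `2 Kc ^ 3 / M ≤ 1 / 8`. `δ ≤ 1 / Kc`, `φ / (8 (C1 (5 C + 2 ‖r c0 c0‖) + 1))`.
-/

set_option autoImplicit false

open Filter Topology Polynomial Metric Set MeasureTheory

namespace Pool.Agent.H39.BE

open Pool.Agent.H61.TT Pool.Agent.H57.CP Pool.Agent.H78.NS Pool.Agent.H18.UP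
open Pool.Agent.H43.UP (So LC Tq DS px)

private theorem ex_M {Kc η : ℝ} (hη : 0 < η) :
    ∃ M : ℝ, 0 < M ∧ Kc ≤ M ∧ 3 * CQ * Kc * Real.sqrt (Kc / M) ≤ η / 2 ∧ 100 * Kc ^ 3 / M ≤ η ∧ 2 * Kc ^ 3 / M ≤ 1 / 8 := by
  have h1 : ∀ A : ℝ, Tendsto (fun M : ℝ => A / M) atTop (𝓝 0) := fun A => tendsto_const_nhds.div_atTop tendsto_id
  have h2 : Tendsto (fun M : ℝ => Real.sqrt (Kc / M)) atTop (𝓝 0) := by
    have h3 := (Real.continuous_sqrt.tendsto 0).comp (h1 Kc)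
    rw [Real.sqrt_zero] at h3
    exact h3
  have h4 : Tendsto (fun M : ℝ => 3 * CQ * Kc * Real.sqrt (Kc / M)) atTop (𝓝 0) := by
    have := h2.const_mul (3 * CQ * Kc)
    rwa [mul_zero] at this
  have e1 := h4.eventually_lt_const (half_pos hη)
  have e2 := (h1 (100 * Kc ^ 3)).eventually_lt_const hη
  have e3 := (h1 (2 * Kc ^ 3)).eventually_lt_const (show (0 : ℝ) < 1 / 8 by norm_num)
  obtain ⟨M, ⟨⟨⟨k1, k2⟩, k3⟩, k4⟩, k5⟩ :=
    ((((e1.and e2).and e3).and (eventually_ge_atTop Kc)).and (eventually_gt_atTop 0)).exists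
  exact ⟨M, k5, k4, k1.le, k2.le, k3.le⟩

theorem kp_pos {d : ℕ} {a b : Polynomial ℂ} {J : Set ℂ} {δ0 : ℝ} (hG : Geo d a b J δ0) {c : ℂ} (hc : c ∈ J)
    (hcr : Cr a b c) : 0 < kp a b c :=
  norm_pos_iff.2 (div_ne_zero (hG.sim c hc hcr) (pow_ne_zero _ hcr.1))

theorem sec_u {η Kc : ℝ} (hη : 0 < η) (hKc : 1 ≤ Kc) : ∃ M : ℝ, 0 < M ∧ Kc ≤ M ∧
    ∀ {d : ℕ} {a b : Polynomial ℂ} {J Z : Set ℂ} {c0 : ℂ} {δ0 δ1 R C : ℝ} {q r K : ℂ → ℂ → ℂ} {Y : ℂ → ℂ} {N : ℕ}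
      {hh X : ℕ → ℂ → ℂ}, Geo d a b J δ0 → KV a b J Z c0 δ1 R C q r K Y N hh X → ∃ δ C' : ℝ, 0 < δ ∧ 0 ≤ C' ∧
    ∀ (ρ : ℝ) (V C0 : Set ℂ) (m0 k2 p : ℕ) (q2 z2 α : ℂ) (t1 s1 e2 t2 : ℝ), IsOpen V →
      ball c0 ρ ⊆ V → V ⊆ ball c0 (2 * ρ) → V ⊆ ball c0 δ1 → C0 ⊆ V → MeasurableSet C0 →
      Cen a b J c0 ρ M Kc (Kc * kp a b c0) δ V C0 m0 k2 p q2 z2 α t1 s1 e2 t2 →
      ∃ (D P : ℂ → ℂ) (A : ℕ → ℂ), LV a b Z V C0 c0 ρ t1 η C' N hh D P A := by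
  obtain ⟨M, hM0, hKM, m1, m2, m3⟩ := ex_M (Kc := Kc) hη
  refine ⟨M, hM0, hKM, ?_⟩
  intro d a b J Z c0 δ0 δ1 R C q r K Y N hh X hG hK
  classical
  have hKc0 : 0 < Kc := by linarith
  have hφ0 : 0 < kp a b c0 := kp_pos hG hK.cJ hK.c0c
  obtain ⟨φ, hφ⟩ : ∃ φ, φ = kp a b c0 := ⟨_, rfl⟩
  rw [← hφ] at hφ0
  have hC := hK.hC
  have hC0 : 0 < C := by linarith
  obtain ⟨C1, hC1⟩ : ∃ C1, C1 = Kc * φ := ⟨_, rfl⟩
  have hC1p : 0 < C1 := by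
    rw [hC1]
    positivity
  obtain ⟨E, hE⟩ : ∃ E, E = C1 * (5 * C + 2 * ‖r c0 c0‖) + 1 := ⟨_, rfl⟩
  have hE0 : 0 < E := by
    rw [hE]
    positivity
  refine ⟨min (1 / Kc) (φ / (8 * E)), 3 * C * C1, lt_min (by positivity) (by positivity), by positivity, ?_⟩
  intro ρ V C0 m0 k2 p q2 z2 α t1 s1 e2 t2 Vo hVb hVs hV1 hCV hCm Ce
  rw [← hφ, ← hC1] at Ce
  have hδp : 0 < min (1 / Kc) (φ / (8 * E)) := lt_min (by positivity) (by positivity)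
  have hKδ : Kc * min (1 / Kc) (φ / (8 * E)) ≤ 1 := by
    refine (mul_le_mul_of_nonneg_left (min_le_left _ _) hKc0.le).trans (le_of_eq ?_)
    field_simp
  have O := ob_of_cen hG hK.crR hKc hC1p hKM hδp hKδ hVb hVs hCV Ce
  have hρδ : ρ ≤ φ / (8 * E) := Ce.hρδ.trans (min_le_right _ _)
  set n := k2 - 1 with hn
  set n' := m0 - k2 with hn'
  set β0 : ℝ := ‖(tD a b n (gg a b c0))⁻¹‖ with hβ0
  have hβ00 : 0 ≤ β0 := norm_nonneg _
  set X' : ENNReal := ∫⁻ w in Z, ‖K α w‖ₑ with hX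
  have hXf : X' ≠ ⊤ := (hK.Ki α O.αJ).2.ne
  have hX0 : 0 ≤ X'.toReal := ENNReal.toReal_nonneg
  have ht1 := O.t1p
  set ε : ℝ := min (φ / 8) (η * φ / 2 * t1 ^ 2) / ((β0 + 1) * (C + X'.toReal + 1)) with hεd
  have hmin : 0 < min (φ / 8) (η * φ / 2 * t1 ^ 2) := lt_min (by positivity) (by positivity)
  have hε0 : 0 < ε := by positivity
  obtain ⟨s, hs⟩ := tail O ε hε0
  set βN : ℝ := ‖(tD a b (n' + p * s) z2)⁻¹‖ with hβN
  have hβN0 : 0 ≤ βN := norm_nonneg _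
  have hprod : β0 * βN * (C + X'.toReal) ≤ min (φ / 8) (η * φ / 2 * t1 ^ 2) := by
    have h0 : β0 * βN ≤ (β0 + 1) * ε := mul_le_mul (by linarith) hs hβN0 (by linarith)
    have h1 : β0 * βN * (C + X'.toReal) ≤ (β0 + 1) * ε * (C + X'.toReal + 1) :=
      mul_le_mul h0 (by linarith) (by linarith) (by positivity)
    refine h1.trans (le_of_eq ?_)
    rw [hεd]
    field_simp
  have hpC : β0 * βN * C ≤ φ / 8 := by
    have h1 : β0 * βN * C ≤ β0 * βN * (C + X'.toReal) := by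
      apply mul_le_mul_of_nonneg_left _ (by positivity)
      linarith
    exact (h1.trans hprod).trans (min_le_left _ _)
  have hpX : β0 * βN * X'.toReal ≤ η * φ / 2 * t1 ^ 2 := by
    have h1 : β0 * βN * X'.toReal ≤ β0 * βN * (C + X'.toReal) := by
      apply mul_le_mul_of_nonneg_left _ (by positivity)
      linarith
    exact (h1.trans hprod).trans (min_le_right _ _)
  have hval := val hK.toKD O s
  have hm2 : 100 * (Kc ^ 2 * C1) / M ≤ η * φ := by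
    have h1 := mul_le_mul_of_nonneg_right m2 hφ0.le
    calc 100 * (Kc ^ 2 * C1) / M = 100 * Kc ^ 3 / M * φ := by
          rw [hC1]
          ring
      _ ≤ η * φ := h1
  have hm3 : 2 * (Kc ^ 2 * C1) / M ≤ φ / 8 := by
    have h1 := mul_le_mul_of_nonneg_right m3 hφ0.le
    calc 2 * (Kc ^ 2 * C1) / M = 2 * Kc ^ 3 / M * φ := by
          rw [hC1]
          ring
      _ ≤ 1 / 8 * φ := h1
      _ = φ / 8 := by ring
  have hm1 : 3 * CQ * C1 * Real.sqrt (Kc / M) ≤ η * φ / 2 := by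
    have h1 := mul_le_mul_of_nonneg_right m1 hφ0.le
    calc 3 * CQ * C1 * Real.sqrt (Kc / M) = 3 * CQ * Kc * Real.sqrt (Kc / M) * φ := by
          rw [hC1]
          ring
      _ ≤ η / 2 * φ := h1
      _ = η * φ / 2 := by ring
  have hρ8 : 3 * C * C1 * ρ + C1 * ρ * (2 * C + 2 * ‖r c0 c0‖) ≤ φ / 8 := by
    have h1 : 3 * C * C1 * ρ + C1 * ρ * (2 * C + 2 * ‖r c0 c0‖) = (E - 1) * ρ := by
      rw [hE]
      ring
    have hρ := O.hρ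
    rw [h1]
    calc (E - 1) * ρ ≤ E * ρ := mul_le_mul_of_nonneg_right (by linarith) hρ.le
      _ ≤ E * (φ / (8 * E)) := mul_le_mul_of_nonneg_left hρδ hE0.le
      _ = φ / 8 := by
        field_simp
  refine ⟨DS a b (gg a b c0) q2 z2 n (n' + p * s) q, DS a b (gg a b c0) q2 z2 n (n' + p * s) (px V r),
    AV a b (gg a b c0) q2 z2 n X, ds_int hK.toKD O _, p_diff hK.toKD O hV1 _, ?_, ?_, ?_, ?_, av_le hK O⟩
  · obtain ⟨f2, hf2⟩ : ∃ f2 : ℂ, f2 = (derivative (ww a b)).eval c0 / b.eval c0 ^ 2 := ⟨_, rfl⟩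
    have hf : ‖f2‖ = φ := by
      rw [hf2, hφ]
      rfl
    rw [← hf2] at hval
    rw [← hφ]
    have h2 : ‖f2‖ - ‖DS a b (gg a b c0) q2 z2 n (n' + p * s) (px V r) c0‖ ≤
        ‖DS a b (gg a b c0) q2 z2 n (n' + p * s) (px V r) c0 - f2‖ := by
      rw [norm_sub_rev]
      exact norm_sub_norm_le _ _
    rw [hf] at h2
    linarith
  · rw [← hφ]
    exact (pol_V hK.toKD O Vo hV1 s).trans
      (ENNReal.ofReal_le_ofReal (mul_le_mul_of_nonneg_right hm2 (sq_nonneg _)))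
  · rw [← hφ]
    exact (pol_C hK.toKD O hCm hV1 s).trans
      (ENNReal.ofReal_le_ofReal (mul_le_mul_of_nonneg_right hm2 (sq_nonneg _)))
  · rw [← hφ]
    refine (err_le hG.rt hK O s).trans ?_
    have h1 : ENNReal.ofReal (β0 * βN) * X' ≤ ENNReal.ofReal (η * φ / 2 * t1 ^ 2) := by
      rw [← ENNReal.ofReal_toReal hXf, ← ENNReal.ofReal_mul (by positivity)]
      exact ENNReal.ofReal_le_ofReal hpX
    have h2 : 3 * CQ * C1 * Real.sqrt (Kc / M) * t1 ^ 2 ≤ η * φ / 2 * t1 ^ 2 :=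
      mul_le_mul_of_nonneg_right hm1 (sq_nonneg _)
    refine (add_le_add (ENNReal.ofReal_le_ofReal h2) h1).trans ?_
    rw [← ENNReal.ofReal_add (by positivity) (by positivity)]
    apply ENNReal.ofReal_le_ofReal
    linarith

end Pool.Agent.H39.BE
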